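import Pool.Agent.MP_9caa86_co.H42.Mono

/-! A left-to-right order of all the edges of an upward planar drawing. -/

open Set

namespace Pool.Agent.MP_9caa86_co.H42

lemma exists_rank {n : ℕ} (py : Fin n → ℝ) : ∃ rk : Fin n → ℕ, Function.Injective rk ∧
    (∀ v, rk v < n) ∧ ∀ v w, py v < py w → rk v < rk w := by
  classical
  let lx : Fin n → ℝ ×ₗ Fin n := fun v => toLex (py v, v)
  have hinj : Function.Injective lx := fun v w h => congrArg (fun p => (ofLex p).2) h
  let rk : Fin n → ℕ := fun v => (Finset.univ.filter (fun w => lx w < lx v)).card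
  have hmono : ∀ v w, lx v < lx w → rk v < rk w := by
    intro v w h
    refine Finset.card_lt_card ⟨fun z hz => ?_, fun hsub => ?_⟩
    · simp only [Finset.mem_filter, Finset.mem_univ, true_and] at hz ⊢
      exact hz.trans h
    · have : v ∈ Finset.univ.filter (fun z => lx z < lx w) := by simpa using h
      simpa using hsub this
  refine ⟨rk, fun v w h => ?_, fun v => ?_, fun v w h => hmono v w ?_⟩
  · rcases lt_trichotomy (lx v) (lx w) with h1 | h1 | h1
    · exact absurd h (hmono v w h1).ne
    · exact hinj h1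
    · exact absurd h (hmono w v h1).ne'
  · have : (Finset.univ.filter (fun w => lx w < lx v)).card < (Finset.univ : Finset (Fin n)).card :=
      Finset.card_lt_card ⟨Finset.subset_univ _, fun hsub => by
        simpa using hsub (Finset.mem_univ v)⟩
    simpa using this
  · exact Prod.Lex.toLex_lt_toLex.2 (Or.inl h)

section

variable {n : ℕ} {E : Finset (Fin n × Fin n)} {px py : Fin n → ℝ} {X : Fin n × Fin n → ℝ → ℝ}

lemma Mono.ne_of_interior (M : Mono E px py X) {e f : Fin n × Fin n} (he : e ∈ E) (hf : f ∈ E)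
    (hne : e ≠ f) {y : ℝ} (h1 : py e.1 < y) (h2 : y < py e.2) (h3 : py f.1 ≤ y)
    (h4 : y ≤ py f.2) : X e y ≠ X f y := by
  intro h
  obtain ⟨v, h5, _, h6⟩ := M.nocross e he f hf hne y ⟨h1.le, h2.le⟩ ⟨h3, h4⟩ h
  rcases h5 with rfl | rfl <;> linarith

/-- The order given by `key` refines the left-to-right order. -/
def KA (S : Finset (Fin n × Fin n)) (py : Fin n → ℝ) (X : Fin n × Fin n → ℝ → ℝ)
    (key : Fin n × Fin n → ℝ) : Prop :=
  ∀ e ∈ S, ∀ f ∈ S, key e < key f → ∀ y, py e.1 < y → py f.1 < y → y < py e.2 → y < py f.2 →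
    X e y < X f y

/-- Edges between two edges of one source come from a later source. -/
def KS (S : Finset (Fin n × Fin n)) (rk : Fin n → ℕ) (key : Fin n × Fin n → ℝ) : Prop :=
  ∀ e ∈ S, ∀ e' ∈ S, ∀ f ∈ S, e.1 = e'.1 → key e < key f → key f < key e' → f.1 ≠ e.1 →
    rk e.1 < rk f.1

/-- Edges between two edges of one sink go to a lower sink. -/
def KT (S : Finset (Fin n × Fin n)) (py : Fin n → ℝ) (key : Fin n × Fin n → ℝ) : Prop :=
  ∀ e ∈ S, ∀ e' ∈ S, ∀ f ∈ S, e.2 = e'.2 → key e < key f → key f < key e' → f.2 ≠ e.2 →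
    py f.2 < py e.2

lemma Mono.squeeze (M : Mono E px py X) {S : Finset (Fin n × Fin n)} (hS : S ⊆ E)
    {key : Fin n × Fin n → ℝ} (hA : KA S py X key) {e e' f : Fin n × Fin n} (he : e ∈ S)
    (he' : e' ∈ S) (hf : f ∈ S) (h2 : e.2 = e'.2) (k1 : key e < key f) (k2 : key f < key e')
    (hne : f.2 ≠ e.2) (hy : py e.2 ≤ py f.2) (hy' : py f.1 < py e.2) : False := by
  have l1 := M.lt e (hS he)
  have l2 := M.lt e' (hS he')
  rw [← h2] at l2
  obtain ⟨y0, y1, y2⟩ := exists_between (max_lt (max_lt l1 l2) hy')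
  simp only [max_lt_iff] at y1
  have aux : ∀ g ∈ S, g.2 = e.2 → py g.1 < y0 → ∀ y ∈ Icc y0 (py e.2), X g y ≠ X f y := by
    intro g hg hg2 hg1 y hyI
    have hgf : g ≠ f := fun h => hne (by rw [← h, hg2])
    rcases eq_or_lt_of_le hyI.2 with h | h
    · intro hx
      obtain ⟨v, h5, h6, h7⟩ := M.nocross g (hS hg) f (hS hf) hgf y
        ⟨by linarith [hyI.1], by rw [hg2]; exact hyI.2⟩ ⟨by linarith [hyI.1], by linarith⟩ hx
      rcases h5 with rfl | rfl
      · linarith [hyI.1]
      · rcases h6 with h6 | h6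
        · rw [h6] at h7; linarith
        · exact hne (by rw [← h6, hg2])
    · exact M.ne_of_interior (hS hg) (hS hf) hgf (by linarith [hyI.1]) (by rw [hg2]; exact h)
        (by linarith [hyI.1]) (by linarith)
  have s1 := (M.side (hS he) (hS hf) y2.le y1.1.1.le le_rfl y1.2.le hy
    (aux e he rfl y1.1.1)).1 (hA e he f hf k1 y0 y1.1.1 y1.2 y2 (by linarith))
  have s2 := (M.side (hS hf) (hS he') y2.le y1.2.le hy y1.1.2.le (by rw [h2])
    (fun y hy => (aux e' he' h2.symm y1.1.2 y hy).symm)).1
    (hA f hf e' he' k2 y0 y1.2 y1.1.2 (by linarith) (by rw [← h2]; exact y2))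
  rw [M.right e (hS he)] at s1
  rw [h2, M.right e' (hS he'), ← h2] at s2
  exact lt_asymm s1 s2

lemma exists_gap {S : Finset (Fin n × Fin n)} (key : Fin n × Fin n → ℝ) (lo : ℝ) :
    ∃ δ : ℝ, 0 < δ ∧ ∀ e ∈ S, key e ≤ lo ∨ lo + δ ≤ key e := by
  classical
  by_cases h : (S.filter (fun e => lo < key e)).Nonempty
  · obtain ⟨g, hg, hmin⟩ := Finset.exists_min_image _ key h
    refine ⟨key g - lo, by linarith [(Finset.mem_filter.1 hg).2], fun e he => ?_⟩
    by_cases h1 : lo < key e
    · right; linarith [hmin e (Finset.mem_filter.2 ⟨he, h1⟩)]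
    · left; exact not_lt.1 h1
  · refine ⟨1, one_pos, fun e he => Or.inl (not_lt.1 fun h1 => h ⟨e, Finset.mem_filter.2 ⟨he, h1⟩⟩)⟩

lemma Mono.sweep (M : Mono E px py X) {rk : Fin n → ℕ} (hinj : Function.Injective rk)
    (hrk : ∀ v w, py v < py w → rk v < rk w) (j : ℕ) :
    ∃ key : Fin n × Fin n → ℝ, InjOn key (E.filter (fun e => rk e.1 < j)) ∧
      KA (E.filter (fun e => rk e.1 < j)) py X key ∧ KS (E.filter (fun e => rk e.1 < j)) rk key ∧
      KT (E.filter (fun e => rk e.1 < j)) py key := by
  classical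
  induction j with
  | zero =>
    refine ⟨0, ?_, ?_, ?_, ?_⟩
    · simp
    · intro e he; simp at he
    · intro e he; simp at he
    · intro e he; simp at he
  | succ j ih =>
    obtain ⟨key, kI, kA, kS, kT⟩ := ih
    set O := E.filter (fun e => rk e.1 < j) with hO
    set N := E.filter (fun e => rk e.1 = j) with hN
    by_cases hNe : ¬ N.Nonempty
    · have : E.filter (fun e => rk e.1 < j + 1) = O := by
        ext e
        simp only [hO, Finset.mem_filter]
        refine and_congr_right fun he => ⟨fun h => ?_, fun h => by omega⟩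
        have : rk e.1 ≠ j := fun h' => hNe ⟨e, Finset.mem_filter.2 ⟨he, h'⟩⟩
        omega
      rw [this]
      exact ⟨key, kI, kA, kS, kT⟩
    push Not at hNe
    obtain ⟨f0, hf0, hf0min⟩ := Finset.exists_min_image N (fun f => py f.2) hNe
    set u := f0.1 with hu
    have hOE : O ⊆ E := Finset.filter_subset _ _
    have hNE : N ⊆ E := Finset.filter_subset _ _
    have huj : rk u = j := (Finset.mem_filter.1 hf0).2
    have hNu : ∀ f ∈ N, f.1 = u := fun f hf => hinj (by rw [huj, (Finset.mem_filter.1 hf).2])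
    have hOu : ∀ e ∈ O, e.1 ≠ u := fun e he h => by
      have := (Finset.mem_filter.1 he).2
      rw [h, huj] at this
      exact lt_irrefl _ this
    have hOy : ∀ e ∈ O, py e.1 ≤ py u := fun e he => not_lt.1 fun h => by
      have h1 := hrk _ _ h
      have h2 := (Finset.mem_filter.1 he).2
      omega
    have hNy : ∀ f ∈ N, py u < py f.2 := fun f hf => by rw [← hNu f hf]; exact M.lt f (hNE hf)
    have hNx : ∀ f ∈ N, X f (py u) = px u := fun f hf => by
      rw [← hNu f hf]; exact M.left f (hNE hf)
    have hON : ∀ e ∈ O, ∀ f ∈ N, e ≠ f := fun e he f hf h => hOu e he (by rw [h, hNu f hf])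
    have G1 : ∀ e ∈ O, py u < py e.2 → X e (py u) ≠ px u := by
      intro e he hy hx
      obtain ⟨v, h5, h6, h7⟩ := M.nocross e (hOE he) f0 (hNE hf0) (hON e he f0 hf0) (py u)
        ⟨hOy e he, hy.le⟩ ⟨le_rfl, (hNy f0 hf0).le⟩ (by rw [hx, hNx f0 hf0])
      rcases h6 with h6 | h6
      · rcases h5 with h5 | h5
        · exact hOu e he (by rw [← h5, h6])
        · rw [← h5, h7] at hy; exact lt_irrefl _ hy
      · have := hNy f0 hf0
        rw [← h6, h7] at this; exact lt_irrefl _ this
    have G2 : ∀ e ∈ O, ∀ f ∈ N, ∀ y, py u < y → y < py e.2 → y < py f.2 →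
        (X e (py u) < px u ↔ X e y < X f y) := by
      intro e he f hf y h1 h2 h3
      rw [← hNx f hf]
      refine M.side (hOE he) (hNE hf) h1.le (hOy e he) h2.le (by rw [hNu f hf]) h3.le ?_
      intro y' hy'
      rcases eq_or_lt_of_le hy'.1 with h | h
      · rw [← h, hNx f hf]; exact G1 e he (by linarith)
      · exact M.ne_of_interior (hOE he) (hNE hf) (hON e he f hf) (by linarith [hOy e he])
          (by linarith [hy'.2]) (by rw [hNu f hf]; exact h.le) (by linarith [hy'.2])
    have G3a : ∀ f ∈ N, ∀ f' ∈ N, f ≠ f' → ∀ y, py u < y → y ≤ py f.2 → y ≤ py f'.2 →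
        X f y ≠ X f' y := by
      intro f hf f' hf' hne y h1 h2 h3 hx
      obtain ⟨v, h5, h6, h7⟩ := M.nocross f (hNE hf) f' (hNE hf') hne y
        ⟨by rw [hNu f hf]; exact h1.le, h2⟩ ⟨by rw [hNu f' hf']; exact h1.le, h3⟩ hx
      have hv : v ≠ u := fun h => by rw [h] at h7; linarith
      rw [hNu f hf] at h5
      rw [hNu f' hf'] at h6
      exact hne (Prod.ext (by rw [hNu f hf, hNu f' hf'])
        (by rw [← h5.resolve_left hv, ← h6.resolve_left hv]))
    have G3 : ∀ f ∈ N, ∀ f' ∈ N, f ≠ f' → ∀ y, py u < y → y ≤ py f.2 → y ≤ py f'.2 →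
        (X f (py f0.2) < X f' (py f0.2) ↔ X f y < X f' y) := by
      intro f hf f' hf' hne y h1 h2 h3
      have m0 := hNy f0 hf0
      have m1 := hf0min f hf
      have m2 := hf0min f' hf'
      rcases le_total (py f0.2) y with h | h
      · exact M.side (hNE hf) (hNE hf') h (by rw [hNu f hf]; exact m0.le) h2
          (by rw [hNu f' hf']; exact m0.le) h3 fun y' hy' => G3a f hf f' hf' hne y'
            (by linarith [hy'.1]) (by linarith [hy'.2]) (by linarith [hy'.2])
      · exact (M.side (hNE hf) (hNE hf') h (by rw [hNu f hf]; exact h1.le) m1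
          (by rw [hNu f' hf']; exact h1.le) m2 fun y' hy' => G3a f hf f' hf' hne y'
            (by linarith [hy'.1]) (by linarith [hy'.2]) (by linarith [hy'.2])).symm
    set L := O.filter (fun e => py u < py e.2 ∧ X e (py u) < px u) with hL
    have hlo : ∃ lo : ℝ, (∀ e ∈ L, key e ≤ lo) ∧
        (∀ e ∈ O, py u < py e.2 → e ∉ L → lo < key e) ∧
        ((∃ g ∈ L, key g = lo) ∨ ∀ e ∈ O, lo < key e) := by
      by_cases hLe : L.Nonempty
      · obtain ⟨g, hg, hmax⟩ := Finset.exists_max_image L key hLe
        obtain ⟨hgO, hg1, hg2⟩ := Finset.mem_filter.1 hg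
        refine ⟨key g, hmax, fun e he hy heL => ?_, Or.inl ⟨g, hg, rfl⟩⟩
        have hne : e ≠ g := fun h => heL (h ▸ hg)
        have hx : px u < X e (py u) := lt_of_le_of_ne
          (not_lt.1 fun h => heL (Finset.mem_filter.2 ⟨he, hy, h⟩)) (G1 e he hy).symm
        by_contra hcon
        have hk : key e < key g := lt_of_le_of_ne (not_lt.1 hcon) fun h => hne (kI he hgO h)
        obtain ⟨y, y1, y2⟩ := exists_between (lt_min hy hg1)
        rw [lt_min_iff] at y2
        have s1 := kA e he g hgO hk y (by linarith [hOy e he]) (by linarith [hOy g hgO]) y2.1 y2.2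
        have s2 := (M.side (hOE hgO) (hOE he) y1.le (hOy g hgO) y2.2.le (hOy e he) y2.1.le
          (fun y' hy' => by
            rcases eq_or_lt_of_le hy'.1 with h | h
            · rw [← h]; linarith
            · exact M.ne_of_interior (hOE hgO) (hOE he) hne.symm (by linarith [hOy g hgO])
                (by linarith [hy'.2]) (by linarith [hOy e he]) (by linarith [hy'.2]))).1
          (by linarith)
        exact lt_asymm s1 s2
      · obtain ⟨b, hb⟩ := (O.image key).bddBelow
        have hb' : ∀ e ∈ O, b - 1 < key e := fun e he => by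
          have : b ≤ key e := hb (by simpa using ⟨e.1, e.2, he, rfl⟩)
          linarith
        exact ⟨b - 1, fun e he => absurd ⟨e, he⟩ hLe, fun e he _ _ => hb' e he, Or.inr hb'⟩
    obtain ⟨lo, ha, hc, hd⟩ := hlo
    obtain ⟨δ, hδ, hb⟩ := exists_gap (S := O) key lo
    set key' : Fin n × Fin n → ℝ := fun f =>
      if rk f.1 = j then lo + δ * Real.sigmoid (X f (py f0.2)) else key f with hkey'
    have kO : ∀ e ∈ O, key' e = key e := fun e he => by
      have := (Finset.mem_filter.1 he).2
      simp only [hkey', if_neg this.ne]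
    have kN : ∀ f ∈ N, key' f = lo + δ * Real.sigmoid (X f (py f0.2)) := fun f hf => by
      simp only [hkey', if_pos (Finset.mem_filter.1 hf).2]
    have kN1 : ∀ f ∈ N, lo < key' f ∧ key' f < lo + δ := fun f hf => by
      rw [kN f hf]
      constructor
      · nlinarith [Real.sigmoid_pos (X f (py f0.2))]
      · nlinarith [Real.sigmoid_lt_one (X f (py f0.2))]
    have hsplit : ∀ e ∈ E.filter (fun e => rk e.1 < j + 1), e ∈ O ∨ e ∈ N := by
      intro e he
      obtain ⟨h1, h2⟩ := Finset.mem_filter.1 he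
      rcases Nat.lt_succ_iff_lt_or_eq.1 h2 with h | h
      · exact Or.inl (Finset.mem_filter.2 ⟨h1, h⟩)
      · exact Or.inr (Finset.mem_filter.2 ⟨h1, h⟩)
    have kA' : KA (E.filter (fun e => rk e.1 < j + 1)) py X key' := by
      intro e he f hf hk y y1 y2 y3 y4
      rcases hsplit e he with he | he <;> rcases hsplit f hf with hf | hf
      · rw [kO e he, kO f hf] at hk
        exact kA e he f hf hk y y1 y2 y3 y4
      · rw [hNu f hf] at y2
        rw [kO e he] at hk
        have h1 : e ∈ L := by
          by_contra h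
          have := hc e he (by linarith) h
          rcases hb e he with h2 | h2 <;> linarith [(kN1 f hf).2]
        exact (G2 e he f hf y y2 y3 y4).1 (Finset.mem_filter.1 h1).2.2
      · rw [hNu e he] at y1
        rw [kO f hf] at hk
        have h1 : ¬ X f (py u) < px u := fun h => by
          have := ha f (Finset.mem_filter.2 ⟨hf, by linarith, h⟩)
          linarith [(kN1 e he).1]
        rw [G2 f hf e he y y1 y4 y3] at h1
        exact lt_of_le_of_ne (not_lt.1 h1) (M.ne_of_interior (hOE hf) (hNE he) (hON f hf e he) y2 y4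
          (by rw [hNu e he]; exact y1.le) y3.le).symm
      · rw [hNu e he] at y1
        have hne : e ≠ f := fun h => by rw [h] at hk; exact lt_irrefl _ hk
        rw [kN e he, kN f hf] at hk
        have h1 : Real.sigmoid (X e (py f0.2)) < Real.sigmoid (X f (py f0.2)) := by nlinarith
        exact (G3 e he f hf hne y y1 y3.le y4.le).1 (Real.sigmoid_strictMono.lt_iff_lt.1 h1)
    refine ⟨key', ?_, kA', ?_, ?_⟩
    · intro e he f hf hk
      rcases hsplit e he with he | he <;> rcases hsplit f hf with hf | hf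
      · rw [kO e he, kO f hf] at hk
        exact kI he hf hk
      · rw [kO e he] at hk
        rcases hb e he with h2 | h2 <;> linarith [(kN1 f hf).1, (kN1 f hf).2]
      · rw [kO f hf] at hk
        rcases hb f hf with h2 | h2 <;> linarith [(kN1 e he).1, (kN1 e he).2]
      · by_contra hne
        rw [kN e he, kN f hf] at hk
        have h1 : Real.sigmoid (X e (py f0.2)) = Real.sigmoid (X f (py f0.2)) :=
          mul_left_cancel₀ hδ.ne' (by linarith)
        exact G3a e he f hf hne _ (hNy f0 hf0) (hf0min e he) (hf0min f hf)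
          (Real.sigmoid_strictMono.injective h1)
    · intro e he e' he' f hf h1 k1 k2 hne
      rcases hsplit f hf with hf | hf
      · rcases hsplit e he with he | he
        · have he'' : e' ∈ O := (hsplit e' he').resolve_right fun h => hOu e he (by rw [h1, hNu e' h])
          rw [kO e he, kO f hf] at k1
          rw [kO e' he'', kO f hf] at k2
          exact kS e he e' he'' f hf h1 k1 k2 hne
        · have he'' : e' ∈ N := (hsplit e' he').resolve_left fun h =>
            hOu e' h (by rw [← h1, hNu e he])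
          rw [kO f hf] at k1 k2
          rcases hb f hf with h2 | h2 <;> linarith [(kN1 e he).1, (kN1 e' he'').2]
      · have he'' : e ∈ O := (hsplit e he).resolve_right fun h => hne (by rw [hNu f hf, hNu e h])
        rw [(Finset.mem_filter.1 hf).2]
        exact (Finset.mem_filter.1 he'').2
    · intro e he e' he' f hf h2 k1 k2 hne
      by_contra hcon
      have hy := not_lt.1 hcon
      by_cases hy' : py f.1 < py e.2
      · exact M.squeeze (Finset.filter_subset _ _) kA' he he' hf h2 k1 k2 hne hy hy'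
      have hfu : py f.1 ≤ py u := by
        rcases hsplit f hf with h | h
        · exact hOy f h
        · rw [hNu f h]
      have heO : e ∈ O := (hsplit e he).resolve_right fun h => by linarith [hNy e h]
      have heO' : e' ∈ O := (hsplit e' he').resolve_right fun h => by
        have := hNy e' h
        rw [← h2] at this; linarith
      rw [kO e heO] at k1
      rw [kO e' heO'] at k2
      rcases hsplit f hf with hf | hf
      · rw [kO f hf] at k1 k2
        exact hcon (kT e heO e' heO' f hf h2 k1 k2 hne)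
      · have h3 : key e ≤ lo := by
          rcases hb e heO with h | h
          · exact h
          · linarith [(kN1 f hf).2]
        rcases hd with ⟨g, hg, hgk⟩ | hd
        · obtain ⟨hgO, hg1, _⟩ := Finset.mem_filter.1 hg
          have hg2 : g.2 ≠ e.2 := fun h => by rw [h] at hg1; linarith
          have h4 : key e < key g := lt_of_le_of_ne (by linarith)
            fun h => hg2 (by rw [kI heO hgO h])
          have := kT e heO e' heO' g hgO h2 h4 (by linarith [(kN1 f hf).1]) hg2
          linarith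
        · linarith [hd e heO]

end

/-- The combinatorial data extracted from an upward planar drawing. -/
theorem UpwardPlanar.order {n : ℕ} {E : Finset (Fin n × Fin n)} (h : UpwardPlanar E) :
    ∃ (rk : Fin n → ℕ) (idx : Fin n × Fin n → ℕ), Function.Injective rk ∧ (∀ v, rk v < n) ∧
      (∀ e ∈ E, rk e.1 < rk e.2) ∧ InjOn idx E ∧ (∀ e ∈ E, 1 ≤ idx e ∧ idx e ≤ E.card) ∧
      (∀ e ∈ E, ∀ e' ∈ E, ∀ f ∈ E, e.1 = e'.1 → idx e < idx f → idx f < idx e' → f.1 ≠ e.1 →
        rk e.1 < rk f.1) ∧
      (∀ e ∈ E, ∀ e' ∈ E, ∀ f ∈ E, e.2 = e'.2 → idx e < idx f → idx f < idx e' → f.2 ≠ e.2 →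
        rk f.2 < rk e.2) := by
  classical
  obtain ⟨px, py, X, M⟩ := h.mono
  obtain ⟨rk, r1, r2, r3⟩ := exists_rank py
  obtain ⟨key, kI, _, kS, kT⟩ := M.sweep r1 r3 n
  have hE : E.filter (fun e => rk e.1 < n) = E := Finset.filter_true_of_mem fun e _ => r2 _
  rw [hE] at kI kS kT
  let idx : Fin n × Fin n → ℕ := fun e => (E.filter (fun f => key f ≤ key e)).card
  have hmono : ∀ e, ∀ f ∈ E, key e < key f → idx e < idx f := by
    intro e f hf h
    refine Finset.card_lt_card ⟨fun z hz => ?_, fun hsub => ?_⟩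
    · simp only [Finset.mem_filter] at hz ⊢
      exact ⟨hz.1, hz.2.trans h.le⟩
    · have := (Finset.mem_filter.1 (hsub (Finset.mem_filter.2 ⟨hf, le_rfl⟩))).2
      linarith
  have hrev : ∀ e ∈ E, ∀ f ∈ E, idx e < idx f → key e < key f := by
    intro e he f hf h
    rcases lt_trichotomy (key e) (key f) with h1 | h1 | h1
    · exact h1
    · rw [kI he hf h1] at h; exact absurd h (lt_irrefl _)
    · exact absurd h (not_lt.2 (hmono f e he h1).le)
  refine ⟨rk, idx, r1, r2, fun e he => r3 _ _ (M.lt e he), fun e he f hf h => ?_,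
    fun e he => ⟨?_, Finset.card_filter_le _ _⟩, ?_, ?_⟩
  · rcases lt_trichotomy (key e) (key f) with h1 | h1 | h1
    · exact absurd h (hmono e f hf h1).ne
    · exact kI he hf h1
    · exact absurd h (hmono f e he h1).ne'
  · exact Finset.card_pos.2 ⟨e, Finset.mem_filter.2 ⟨he, le_rfl⟩⟩
  · intro e he e' he' f hf h1 h2 h3 h4
    exact kS e he e' he' f hf h1 (hrev e he f hf h2) (hrev f hf e' he' h3) h4
  · intro e he e' he' f hf h1 h2 h3 h4
    exact r3 _ _ (kT e he e' he' f hf h1 (hrev e he f hf h2) (hrev f hf e' he' h3) h4)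

end Pool.Agent.MP_9caa86_co.H42
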