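import Mathlib

/-! Definitions: bipartite DAGs, upward planar drawings, poly-line grid drawings. -/

open Set

namespace Pool.Agent.MP_9caa86_co.H42

/-- Every edge goes from a vertex of `V₁` to a vertex outside `V₁`. -/
def IsBipDAG {n : ℕ} (E : Finset (Fin n × Fin n)) : Prop :=
  ∃ V₁ : Set (Fin n), ∀ e ∈ E, e.1 ∈ V₁ ∧ e.2 ∉ V₁

/-- Two different edges meet only in the position of a common endpoint. -/
def NoCross {n : ℕ} (E : Finset (Fin n × Fin n)) (pos : Fin n → ℝ × ℝ)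
    (curve : Fin n × Fin n → Set (ℝ × ℝ)) : Prop :=
  ∀ e ∈ E, ∀ f ∈ E, e ≠ f → ∀ p ∈ curve e ∩ curve f,
    ∃ v, (v = e.1 ∨ v = e.2) ∧ (v = f.1 ∨ v = f.2) ∧ p = pos v

/-- The digraph has an upward planar drawing with arbitrary continuous curves. -/
def UpwardPlanar {n : ℕ} (E : Finset (Fin n × Fin n)) : Prop :=
  ∃ (pos : Fin n → ℝ × ℝ) (γ : Fin n × Fin n → ℝ → ℝ × ℝ), Function.Injective pos ∧
    (∀ e ∈ E, ContinuousOn (γ e) (Icc 0 1) ∧ γ e 0 = pos e.1 ∧ γ e 1 = pos e.2 ∧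
      StrictMonoOn (fun t => (γ e t).2) (Icc 0 1)) ∧
    NoCross E pos (fun e => γ e '' Icc 0 1)

/-- A grid point as a point of the plane. -/
def toR (p : ℤ × ℤ) : ℝ × ℝ := ((p.1 : ℝ), (p.2 : ℝ))

/-- The polygonal chain through a list of grid points. -/
def chain : List (ℤ × ℤ) → Set (ℝ × ℝ)
  | p :: q :: l => segment ℝ (toR p) (toR q) ∪ chain (q :: l)
  | _ => ∅

/-- The list of grid points of an edge: tail, bends, head. -/
def pts {n : ℕ} (pos : Fin n → ℤ × ℤ) (bends : Fin n × Fin n → List (ℤ × ℤ))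
    (e : Fin n × Fin n) : List (ℤ × ℤ) :=
  pos e.1 :: (bends e ++ [pos e.2])

/-- Upward planar poly-line grid drawing. -/
def IsPolyDrawing {n : ℕ} (E : Finset (Fin n × Fin n)) (pos : Fin n → ℤ × ℤ)
    (bends : Fin n × Fin n → List (ℤ × ℤ)) : Prop :=
  Function.Injective pos ∧
  (∀ e ∈ E, List.IsChain (fun p q : ℤ × ℤ => p.2 < q.2) (pts pos bends e)) ∧
  NoCross E (fun v => toR (pos v)) (fun e => chain (pts pos bends e))

/-- The drawing lies in the rectangle `[x₀, x₀ + W] × [y₀, y₀ + H]`. -/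
def Fits {n : ℕ} (E : Finset (Fin n × Fin n)) (pos : Fin n → ℤ × ℤ)
    (bends : Fin n × Fin n → List (ℤ × ℤ)) (x₀ y₀ W H : ℝ) : Prop :=
  (∀ v, toR (pos v) ∈ Icc x₀ (x₀ + W) ×ˢ Icc y₀ (y₀ + H)) ∧
  ∀ e ∈ E, chain (pts pos bends e) ⊆ Icc x₀ (x₀ + W) ×ˢ Icc y₀ (y₀ + H)

end Pool.Agent.MP_9caa86_co.H42
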