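import Pool.Agent.MP_9caa86_co.H42.Lower

/-! The family of nested four-cycles is upward planar. -/

open Set

namespace Pool.Agent.MP_9caa86_co.H42

/-- Sign attached to a vertex number. -/
noncomputable def sg (i : ℕ) : ℝ := if i % 2 = 0 then -1 else 1

/-- Scale attached to a vertex number. -/
noncomputable def sc (i : ℕ) : ℝ := ((i / 4 : ℕ) : ℝ) + 1

/-- Position of vertex number `i`. -/
noncomputable def ps (k i : ℕ) : ℝ × ℝ :=
  if i < 4 * k then (if i % 4 < 2 then (0, sg i * sc i) else (sg i * sc i, 2 * sc i))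
  else ((i : ℝ) + 1, 0)

lemma sg_cases (i : ℕ) : sg i = -1 ∨ sg i = 1 := by
  unfold sg; split_ifs <;> simp

lemma one_le_sc (i : ℕ) : 1 ≤ sc i := by
  unfold sc; linarith [Nat.cast_nonneg (α := ℝ) (i / 4)]

lemma sg_eq {i j : ℕ} (h : sg i = sg j) : i % 2 = j % 2 := by
  unfold sg at h
  split_ifs at h <;> first | omega | norm_num at h

lemma sc_eq {i j : ℕ} (h : sc i = sc j) : i / 4 = j / 4 := by
  unfold sc at h
  exact_mod_cast add_right_cancel h

lemma sg_mul_eq {i j : ℕ} {u w : ℝ} (hu : 0 < u) (hw : 0 ≤ w) (h : sg i * u = sg j * w) :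
    sg i = sg j ∧ u = w := by
  rcases sg_cases i with h1 | h1 <;> rcases sg_cases j with h2 | h2 <;> rw [h1, h2] at h ⊢ <;>
    constructor <;> linarith

lemma ps_inj (k : ℕ) : Function.Injective (ps k) := by
  intro i j h
  have h1 := congrArg Prod.fst h
  have h2 := congrArg Prod.snd h
  have i1 := one_le_sc i
  have j1 := one_le_sc j
  have i0 : (0 : ℝ) ≤ i := Nat.cast_nonneg i
  have j0 : (0 : ℝ) ≤ j := Nat.cast_nonneg j
  unfold ps at h1 h2
  split_ifs at h1 h2 <;> simp only at h1 h2
  · obtain ⟨e1, e2⟩ := sg_mul_eq (by linarith) (by linarith) h2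
    have := sg_eq e1
    have := sc_eq e2
    omega
  · rcases sg_cases j with h3 | h3 <;> rw [h3] at h1 <;> linarith
  · linarith
  · rcases sg_cases i with h3 | h3 <;> rw [h3] at h1 <;> linarith
  · obtain ⟨e1, e2⟩ := sg_mul_eq (by linarith) (by linarith) h1
    have := sg_eq e1
    have := sc_eq e2
    omega
  · linarith
  · linarith
  · linarith
  · exact_mod_cast add_right_cancel h1

theorem fam_upwardPlanar (n : ℕ) : UpwardPlanar (fam n) := by
  set pos : Fin n → ℝ × ℝ := fun v => ps (n / 4) v.val with hpos
  have hsrc : ∀ e ∈ fam n, pos e.1 = (0, sg e.1.val * sc e.1.val) := by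
    intro e he
    have := mem_fam.1 he
    simp only [hpos, ps, if_pos this.1, if_pos this.2.2.1]
  have hsnk : ∀ e ∈ fam n, pos e.2 = (sg e.2.val * sc e.2.val, 2 * sc e.2.val) := by
    intro e he
    have := mem_fam.1 he
    simp only [hpos, ps, if_pos this.2.1, if_neg (show ¬ e.2.val % 4 < 2 by omega)]
  have hsc : ∀ e ∈ fam n, sc e.1.val ≤ sc e.2.val ∧ sc e.2.val ≤ sc e.1.val + 1 := by
    intro e he
    have := mem_fam.1 he
    unfold sc
    rcases this.2.2.2.2 with h | h <;> rw [h] <;> push_cast <;> constructor <;> linarith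
  refine ⟨pos, fun e t => (t * (pos e.2).1, (1 - t) * (pos e.1).2 + t * (pos e.2).2),
    (ps_inj _).comp Fin.val_injective, fun e he => ⟨by fun_prop, ?_, ?_, ?_⟩, ?_⟩
  · simp [hsrc e he]
  · simp
  · intro t _ t' _ htt
    simp only [hsrc e he, hsnk e he]
    have h1 := one_le_sc e.1.val
    have h2 := (hsc e he).1
    have h3 : sg e.1.val * sc e.1.val < 2 * sc e.2.val := by
      rcases sg_cases e.1.val with h | h <;> rw [h] <;> linarith
    nlinarith
  · rintro e he f hf hne p ⟨⟨t, ht, rfl⟩, ⟨u, hu, hp⟩⟩
    have me := mem_fam.1 he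
    have mf := mem_fam.1 hf
    have h1 := congrArg Prod.fst hp
    have h2 := congrArg Prod.snd hp
    simp only [hsrc e he, hsnk e he, hsrc f hf, hsnk f hf] at h1 h2 ⊢
    have a1 := one_le_sc e.1.val
    have a2 := one_le_sc e.2.val
    have a3 := one_le_sc f.1.val
    have a4 := one_le_sc f.2.val
    rcases eq_or_lt_of_le ht.1 with t0 | t0
    · have u0 : u = 0 := by
        rw [← t0, zero_mul] at h1
        rcases sg_cases f.2.val with h | h <;> rw [h] at h1 <;> nlinarith [hu.1]
      rw [← t0, u0] at h2
      obtain ⟨e1, e2⟩ := sg_mul_eq (i := e.1.val) (j := f.1.val) (u := sc e.1.val)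
        (w := sc f.1.val) (by linarith) (by linarith) (by linarith)
      have e3 := sg_eq e1
      have e4 := sc_eq e2
      refine ⟨e.1, Or.inl rfl, Or.inl (Fin.ext (by omega)), ?_⟩
      rw [hsrc e he, ← t0]; simp
    · obtain ⟨e1, e2⟩ := sg_mul_eq (i := e.2.val) (j := f.2.val) (u := t * sc e.2.val)
        (w := u * sc f.2.val) (by positivity) (mul_nonneg hu.1 (by linarith)) (by linarith)
      have e3 := sg_eq e1
      rcases eq_or_lt_of_le ht.2 with t1 | t1
      · have u1 : u = 1 := by
          have : (1 - u) * (sg f.1.val * sc f.1.val) = 0 := by rw [t1] at h2 e2; linarith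
          rcases sg_cases f.1.val with h | h <;> rw [h] at this <;> nlinarith [hu.2]
        rw [t1, u1, one_mul, one_mul] at e2
        have e4 := sc_eq e2
        refine ⟨e.2, Or.inr rfl, Or.inr (Fin.ext (by omega)), ?_⟩
        rw [hsnk e he, t1]; simp
      · exfalso
        obtain ⟨e4, e5⟩ := sg_mul_eq (i := e.1.val) (j := f.1.val) (u := (1 - t) * sc e.1.val)
          (w := (1 - u) * sc f.1.val) (mul_pos (by linarith) (by linarith))
          (mul_nonneg (by linarith [hu.2]) (by linarith)) (by linarith)
        have e6 := sg_eq e4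
        have b1 := hsc e he
        have b2 := hsc f hf
        rcases lt_trichotomy (e.2.val / 4) (f.2.val / 4) with c | c | c
        · have c1 : sc e.2.val + 1 ≤ sc f.2.val := by
            unfold sc
            have : ((e.2.val / 4 + 1 : ℕ) : ℝ) ≤ ((f.2.val / 4 : ℕ) : ℝ) := by exact_mod_cast c
            push_cast at this ⊢
            linarith
          have c2 : u < t := by nlinarith [hu.1]
          nlinarith
        · have c1 : sc e.2.val = sc f.2.val := by unfold sc; rw [c]
          have c2 : t = u := by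
            rw [c1] at e2
            exact mul_right_cancel₀ (by linarith) e2
          have c3 : sc e.1.val = sc f.1.val := by
            rw [c2] at e5 t1
            exact mul_left_cancel₀ (by linarith) e5
          have c4 := sc_eq c3
          exact hne (Prod.ext (Fin.ext (by omega)) (Fin.ext (by omega)))
        · have c1 : sc f.2.val + 1 ≤ sc e.2.val := by
            unfold sc
            have : ((f.2.val / 4 + 1 : ℕ) : ℝ) ≤ ((e.2.val / 4 : ℕ) : ℝ) := by exact_mod_cast c
            push_cast at this ⊢
            linarith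
          have c2 : t < u := by nlinarith
          nlinarith [hu.2]

end Pool.Agent.MP_9caa86_co.H42
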