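import Pool.Agent.MP_9caa86_co.H42.Parity

/-! The family of nested four-cycles and the quadratic lower bound. -/

open Set

namespace Pool.Agent.MP_9caa86_co.H42

/-- Blocks of four vertices `4s, 4s+1` (sources) and `4s+2, 4s+3` (sinks); the sources of block
`s` are joined to the sinks of blocks `s` and `s+1`. -/
def fam (n : ℕ) : Finset (Fin n × Fin n) :=
  Finset.univ.filter fun e => e.1.val < 4 * (n / 4) ∧ e.2.val < 4 * (n / 4) ∧ e.1.val % 4 < 2 ∧
    2 ≤ e.2.val % 4 ∧ (e.2.val / 4 = e.1.val / 4 ∨ e.2.val / 4 = e.1.val / 4 + 1)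

lemma mem_fam {n : ℕ} {e : Fin n × Fin n} : e ∈ fam n ↔
    e.1.val < 4 * (n / 4) ∧ e.2.val < 4 * (n / 4) ∧ e.1.val % 4 < 2 ∧
    2 ≤ e.2.val % 4 ∧ (e.2.val / 4 = e.1.val / 4 ∨ e.2.val / 4 = e.1.val / 4 + 1) := by
  simp [fam]

lemma fam_bip (n : ℕ) : IsBipDAG (fam n) :=
  ⟨{v | v.val % 4 < 2}, fun e he => by
    have := mem_fam.1 he
    simp only [mem_ofPred_eq]
    omega⟩

/-- Vertex number `i`. -/
def vt {n : ℕ} (hn : 0 < n) (i : ℕ) : Fin n := if h : i < n then ⟨i, h⟩ else ⟨0, hn⟩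

lemma vt_val {n : ℕ} (hn : 0 < n) {i : ℕ} (h : i < n) : (vt hn i).val = i := by
  simp [vt, h]

lemma vt_ne {n : ℕ} (hn : 0 < n) {i j : ℕ} (hi : i < n) (hj : j < n) (h : i ≠ j) :
    vt hn i ≠ vt hn j := fun hh => h (by rw [← vt_val hn hi, hh, vt_val hn hj])

lemma vt_mem {n : ℕ} (hn : 0 < n) {i j : ℕ} (hi : i < 4 * (n / 4)) (hj : j < 4 * (n / 4))
    (h1 : i % 4 < 2) (h2 : 2 ≤ j % 4) (h3 : j / 4 = i / 4 ∨ j / 4 = i / 4 + 1) :
    (vt hn i, vt hn j) ∈ fam n := by
  rw [mem_fam]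
  simp only [vt_val hn (show i < n by omega), vt_val hn (show j < n by omega)]
  exact ⟨hi, hj, h1, h2, h3⟩

lemma card_le_of_inj {S : Finset ℕ} {f : ℕ → ℤ} (hf : InjOn f S) {y0 H : ℝ} (hH : 0 ≤ H)
    (h : ∀ s ∈ S, y0 ≤ f s ∧ (f s : ℝ) ≤ y0 + H) : (S.card : ℝ) ≤ H + 1 := by
  have h1 : S.card ≤ (Finset.Icc ⌈y0⌉ ⌊y0 + H⌋).card := by
    refine Finset.card_le_card_of_injOn f (fun s hs => ?_) hf
    simp only [Finset.coe_Icc, mem_Icc]
    exact ⟨Int.ceil_le.2 (h s hs).1, Int.le_floor.2 (h s hs).2⟩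
  rw [Int.card_Icc] at h1
  have h2 : (S.card : ℤ) ≤ max (⌊y0 + H⌋ + 1 - ⌈y0⌉) 0 := by
    rw [← Int.toNat_eq_max]; exact_mod_cast h1
  have h3 : (S.card : ℝ) ≤ max ((⌊y0 + H⌋ : ℝ) + 1 - ⌈y0⌉) 0 := by exact_mod_cast h2
  refine h3.trans (max_le ?_ (by linarith))
  linarith [Int.floor_le (y0 + H), Int.le_ceil y0]

section

variable {n : ℕ} (hn : 0 < n) {px py : Fin n → ℝ} {X : Fin n × Fin n → ℝ → ℝ}

/-- The point lies inside the cycle of block `s`. -/
def Ins (py : Fin n → ℝ) (X : Fin n × Fin n → ℝ → ℝ) (s : ℕ) (x y : ℝ) : Prop :=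
  cyc py X (vt hn (4 * s)) (vt hn (4 * s + 1)) (vt hn (4 * s + 2)) (vt hn (4 * s + 3)) x y = 1

lemma ins_edge (M : Mono (fam n) px py X) {s : ℕ} (hs : s < n / 4) {i j : ℕ}
    (hi : i < 4 * (n / 4)) (hj : j < 4 * (n / 4)) (he : (vt hn i, vt hn j) ∈ fam n)
    (his : i / 4 ≠ s) (hjs : j / 4 ≠ s) {y : ℝ} (h0 : py (vt hn i) ≤ y) (h1 : y ≤ py (vt hn j)) :
    Ins hn py X s (X (vt hn i, vt hn j) y) y ↔ Ins hn py X s (px (vt hn i)) (py (vt hn i)) := by
  unfold Ins
  rw [M.cyc_const he (vt_mem hn (by omega) (by omega) (by omega) (by omega) (by omega))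
    (vt_mem hn (by omega) (by omega) (by omega) (by omega) (by omega))
    (vt_mem hn (by omega) (by omega) (by omega) (by omega) (by omega))
    (vt_mem hn (by omega) (by omega) (by omega) (by omega) (by omega))
    (vt_ne hn (by omega) (by omega) (by omega)) (vt_ne hn (by omega) (by omega) (by omega))
    (vt_ne hn (by omega) (by omega) (by omega)) (vt_ne hn (by omega) (by omega) (by omega))
    (vt_ne hn (by omega) (by omega) (by omega)) (vt_ne hn (by omega) (by omega) (by omega))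
    (vt_ne hn (by omega) (by omega) (by omega)) (vt_ne hn (by omega) (by omega) (by omega)) h0 h1]

lemma ins_ends (M : Mono (fam n) px py X) {s : ℕ} (hs : s < n / 4) {i j : ℕ}
    (hi : i < 4 * (n / 4)) (hj : j < 4 * (n / 4)) (h1 : i % 4 < 2) (h2 : 2 ≤ j % 4)
    (h3 : j / 4 = i / 4 ∨ j / 4 = i / 4 + 1) (his : i / 4 ≠ s) (hjs : j / 4 ≠ s) :
    Ins hn py X s (px (vt hn j)) (py (vt hn j)) ↔ Ins hn py X s (px (vt hn i)) (py (vt hn i)) := by
  have he := vt_mem hn hi hj h1 h2 h3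
  have := ins_edge hn M hs hi hj he his hjs (M.lt _ he).le le_rfl
  rw [← this]
  have h := M.right _ he
  simp only at h
  rw [h]

/-- Block `s'` lies inside the cycle of block `s`. -/
def Blk (px py : Fin n → ℝ) (X : Fin n × Fin n → ℝ → ℝ) (s s' : ℕ) : Prop :=
  Ins hn py X s (px (vt hn (4 * s'))) (py (vt hn (4 * s')))

lemma blk_succ (M : Mono (fam n) px py X) {s s' : ℕ} (hs : s < n / 4) (hs' : s' + 1 < n / 4)
    (h1 : s' ≠ s) (h2 : s' + 1 ≠ s) : Blk hn px py X s s' ↔ Blk hn px py X s (s' + 1) := by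
  unfold Blk
  rw [← ins_ends hn M hs (i := 4 * s') (j := 4 * (s' + 1) + 2) (by omega) (by omega) (by omega)
    (by omega) (by omega) (by omega) (by omega),
    ← ins_ends hn M hs (i := 4 * (s' + 1)) (j := 4 * (s' + 1) + 2) (by omega) (by omega) (by omega)
    (by omega) (by omega) (by omega) (by omega)]

lemma blk_down (M : Mono (fam n) px py X) {s : ℕ} (hs : s + 1 < n / 4)
    (h : Blk hn px py X (s + 1) s) : ∀ j s', s' + j = s → Blk hn px py X (s + 1) s' := by
  intro j
  induction j with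
  | zero => intro s' hs'; rw [show s' = s by omega]; exact h
  | succ j ih =>
    intro s' hs'
    exact (blk_succ hn M hs (by omega) (by omega) (by omega)).2 (ih (s' + 1) (by omega))

lemma blk_up (M : Mono (fam n) px py X) {s : ℕ} (h : Blk hn px py X s (s + 1)) :
    ∀ j, s + 1 + j < n / 4 → Blk hn px py X s (s + 1 + j) := by
  intro j
  induction j with
  | zero => intro _; exact h
  | succ j ih =>
    intro hj
    exact (blk_succ hn M (s' := s + 1 + j) (by omega) (by omega) (by omega) (by omega)).1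
      (ih (by omega))

lemma blk_or (M : Mono (fam n) px py X) {s : ℕ} (hs : s + 2 < n / 4) :
    Blk hn px py X (s + 1) s ∨ Blk hn px py X (s + 1) (s + 2) := by
  have := M.inside_or (a := vt hn (4 * (s + 1))) (b := vt hn (4 * (s + 1) + 1))
    (s := vt hn (4 * (s + 1) + 2)) (t := vt hn (4 * (s + 1) + 3)) (u := vt hn (4 * (s + 2) + 2))
    (z := vt hn (4 * s))
    (vt_ne hn (by omega) (by omega) (by omega)) (vt_ne hn (by omega) (by omega) (by omega))
    (vt_ne hn (by omega) (by omega) (by omega)) (vt_ne hn (by omega) (by omega) (by omega))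
    (vt_ne hn (by omega) (by omega) (by omega)) (vt_ne hn (by omega) (by omega) (by omega))
    (vt_ne hn (by omega) (by omega) (by omega)) (vt_ne hn (by omega) (by omega) (by omega))
    (vt_ne hn (by omega) (by omega) (by omega)) (vt_ne hn (by omega) (by omega) (by omega))
    (vt_ne hn (by omega) (by omega) (by omega)) (vt_ne hn (by omega) (by omega) (by omega))
    (vt_ne hn (by omega) (by omega) (by omega)) (vt_ne hn (by omega) (by omega) (by omega))
    (vt_ne hn (by omega) (by omega) (by omega))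
    (vt_mem hn (by omega) (by omega) (by omega) (by omega) (by omega))
    (vt_mem hn (by omega) (by omega) (by omega) (by omega) (by omega))
    (vt_mem hn (by omega) (by omega) (by omega) (by omega) (by omega))
    (vt_mem hn (by omega) (by omega) (by omega) (by omega) (by omega))
    (vt_mem hn (by omega) (by omega) (by omega) (by omega) (by omega))
    (vt_mem hn (by omega) (by omega) (by omega) (by omega) (by omega))
    (vt_mem hn (by omega) (by omega) (by omega) (by omega) (by omega))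
    (vt_mem hn (by omega) (by omega) (by omega) (by omega) (by omega))
  rcases this with h | h
  · exact Or.inl h
  · right
    exact (ins_ends hn M (s := s + 1) (i := 4 * (s + 2)) (j := 4 * (s + 2) + 2) (by omega)
      (by omega) (by omega) (by omega) (by omega) (by omega) (by omega) (by omega)).1 h

lemma blk_edge (M : Mono (fam n) px py X) {s s' : ℕ} (hs : s < n / 4) (hs' : s' < n / 4)
    (hne : s' ≠ s) (h : Blk hn px py X s s') {i j : ℕ} (hi : i = 4 * s' ∨ i = 4 * s' + 1)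
    (hj : j = 4 * s' + 2 ∨ j = 4 * s' + 3) {y : ℝ} (h0 : py (vt hn i) ≤ y)
    (h1 : y ≤ py (vt hn j)) : Ins hn py X s (X (vt hn i, vt hn j) y) y := by
  rw [ins_edge hn M hs (by omega) (by omega)
    (vt_mem hn (by omega) (by omega) (by omega) (by omega) (by omega)) (by omega) (by omega) h0 h1,
    ← ins_ends hn M hs (i := i) (j := 4 * s' + 2) (by omega) (by omega) (by omega) (by omega)
    (by omega) (by omega) (by omega),
    ins_ends hn M hs (i := 4 * s') (j := 4 * s' + 2) (by omega) (by omega) (by omega) (by omega)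
    (by omega) (by omega) (by omega)]
  exact h

end

theorem lower_bound {n : ℕ} (hn40 : 40 ≤ n) {pos : Fin n → ℤ × ℤ}
    {bends : Fin n × Fin n → List (ℤ × ℤ)} (hD : IsPolyDrawing (fam n) pos bends)
    {x₀ y₀ W H : ℝ} (hF : Fits (fam n) pos bends x₀ y₀ W H) : (n : ℝ) ^ 2 / 256 ≤ W * H := by
  classical
  have hn : 0 < n := by omega
  obtain ⟨X, M, hX⟩ := hD.mono
  have hW : 0 ≤ W := by
    have := (hF.1 ⟨0, hn⟩).1
    linarith [this.1, this.2]
  have hH : 0 ≤ H := by
    have := (hF.1 ⟨0, hn⟩).2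
    linarith [this.1, this.2]
  set P : ℕ → ℤ × ℤ → Prop := fun s r => ∃ i j, (i = 4 * s ∨ i = 4 * s + 1) ∧
    (j = 4 * s + 2 ∨ j = 4 * s + 3) ∧ r ∈ pts pos bends (vt hn i, vt hn j) with hP
  have hPfit : ∀ s < n / 4, ∀ r, P s r → x₀ ≤ r.1 ∧ (r.1 : ℝ) ≤ x₀ + W := by
    rintro s hs r ⟨i, j, hi, hj, hr⟩
    have he := vt_mem hn (i := i) (j := j) (by omega) (by omega) (by omega) (by omega) (by omega)
    exact (hF.2 _ he ((hX _ he).1 r hr).2.2.2).1
  have hmn : ∀ s : ℕ, ∃ m : ℤ, s < n / 4 → (∃ r, P s r ∧ r.1 = m) ∧ ∀ r, P s r → m ≤ r.1 := by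
    intro s
    by_cases hs : s < n / 4
    · obtain ⟨m, h1, h2⟩ := Int.exists_least_of_bdd (P := fun m => ∃ r, P s r ∧ r.1 = m)
        ⟨⌈x₀⌉, by
          rintro z ⟨r, hr, rfl⟩
          exact Int.ceil_le.2 (hPfit s hs r hr).1⟩
        ⟨_, pos (vt hn (4 * s)), ⟨4 * s, 4 * s + 2, Or.inl rfl, Or.inl rfl, by simp [pts]⟩, rfl⟩
      exact ⟨m, fun _ => ⟨h1, fun r hr => h2 _ ⟨r, hr, rfl⟩⟩⟩
    · exact ⟨0, fun h => absurd h hs⟩
  choose mn hmn using hmn
  set top : ℕ → ℤ := fun s => max (pos (vt hn (4 * s + 2))).2 (pos (vt hn (4 * s + 3))).2 with htop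
  have hins : ∀ s < n / 4, ∀ x y : ℝ, Ins hn (fun v => ((pos v).2 : ℝ)) X s x y →
      (mn s : ℝ) < x ∧ y < top s := by
    intro s hs x y h
    obtain ⟨g, hg, h1, h2, h3⟩ := exists_of_cyc h
    have : ∃ i j, (i = 4 * s ∨ i = 4 * s + 1) ∧ (j = 4 * s + 2 ∨ j = 4 * s + 3) ∧
        g = (vt hn i, vt hn j) := by
      rcases hg with h | h | h | h
      · exact ⟨_, _, Or.inl rfl, Or.inl rfl, h⟩
      · exact ⟨_, _, Or.inr rfl, Or.inl rfl, h⟩
      · exact ⟨_, _, Or.inl rfl, Or.inr rfl, h⟩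
      · exact ⟨_, _, Or.inr rfl, Or.inr rfl, h⟩
    obtain ⟨i, j, hi, hj, rfl⟩ := this
    have he := vt_mem hn (i := i) (j := j) (by omega) (by omega) (by omega) (by omega) (by omega)
    obtain ⟨r, hr, hr'⟩ := (hX _ he).2 y ⟨h1, h2.le⟩
    have h4 : (mn s : ℝ) ≤ r.1 := by exact_mod_cast (hmn s hs).2 r ⟨i, j, hi, hj, hr⟩
    refine ⟨by linarith, h2.trans_le ?_⟩
    simp only [htop]
    rcases hj with rfl | rfl
    · exact_mod_cast le_max_left _ _
    · exact_mod_cast le_max_right _ _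
  have hnest : ∀ s < n / 4, ∀ s' < n / 4, s' ≠ s →
      Blk hn (fun v => ((pos v).1 : ℝ)) (fun v => ((pos v).2 : ℝ)) X s s' →
      mn s < mn s' ∧ top s' < top s := by
    intro s hs s' hs' hne hb
    constructor
    · obtain ⟨r, ⟨i, j, hi, hj, hr⟩, hr'⟩ := (hmn s' hs').1
      have he := vt_mem hn (i := i) (j := j) (by omega) (by omega) (by omega) (by omega) (by omega)
      obtain ⟨e1, e2, e3, _⟩ := (hX _ he).1 r hr
      have := (hins s hs _ _ (blk_edge hn M hs hs' hne hb hi hj (y := r.2)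
        (by exact_mod_cast e2) (by exact_mod_cast e3))).1
      rw [e1, hr'] at this
      exact_mod_cast this
    · have aux : ∀ j, (j = 4 * s' + 2 ∨ j = 4 * s' + 3) → (pos (vt hn j)).2 < top s := by
        intro j hj
        have he := vt_mem hn (i := 4 * s') (j := j) (by omega) (by omega) (by omega) (by omega)
          (by omega)
        have := (hins s hs _ _ (blk_edge hn M hs hs' hne hb (Or.inl rfl) hj
          (M.lt _ he).le le_rfl)).2
        exact_mod_cast this
      exact max_lt (aux _ (Or.inl rfl)) (aux _ (Or.inr rfl))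
  have hcount : ∀ S : Finset ℕ, (∀ s ∈ S, s < n / 4) → (∀ s ∈ S, ∀ s' ∈ S, s' ≠ s →
      Blk hn (fun v => ((pos v).1 : ℝ)) (fun v => ((pos v).2 : ℝ)) X s s' ∨
      Blk hn (fun v => ((pos v).1 : ℝ)) (fun v => ((pos v).2 : ℝ)) X s' s) →
      (S.card : ℝ) ≤ W + 1 ∧ (S.card : ℝ) ≤ H + 1 := by
    intro S hS hb
    constructor
    · refine card_le_of_inj (f := mn) (y0 := x₀) ?_ hW ?_
      · intro s hs s' hs' heq
        by_contra hne
        rcases hb s hs s' hs' (Ne.symm hne) with h | h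
        · exact (hnest s (hS s hs) s' (hS s' hs') (Ne.symm hne) h).1.ne heq
        · exact (hnest s' (hS s' hs') s (hS s hs) hne h).1.ne heq.symm
      · intro s hs
        obtain ⟨r, hr, hr'⟩ := (hmn s (hS s hs)).1
        rw [← hr']
        exact hPfit s (hS s hs) r hr
    · refine card_le_of_inj (f := top) (y0 := y₀) ?_ hH ?_
      · intro s hs s' hs' heq
        by_contra hne
        rcases hb s hs s' hs' (Ne.symm hne) with h | h
        · exact (hnest s (hS s hs) s' (hS s' hs') (Ne.symm hne) h).2.ne heq.symm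
        · exact (hnest s' (hS s' hs') s (hS s hs) hne h).2.ne heq
      · intro s _
        simp only [htop]
        rcases max_choice (pos (vt hn (4 * s + 2))).2 (pos (vt hn (4 * s + 3))).2 with h | h <;>
          rw [h] <;> exact (hF.1 _).2
  set B : ℕ → Prop := fun s =>
    Blk hn (fun v => ((pos v).1 : ℝ)) (fun v => ((pos v).2 : ℝ)) X s (s - 1) with hB
  set T := Finset.Ioo 0 (n / 4 - 1) with hT
  have hI := hcount (T.filter B) (fun s hs => by
      have := Finset.mem_Ioo.1 (Finset.mem_filter.1 hs).1; omega) (by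
    intro s hs s' hs' hne
    obtain ⟨h1, h2⟩ := Finset.mem_filter.1 hs
    obtain ⟨h1', h2'⟩ := Finset.mem_filter.1 hs'
    have h3 := Finset.mem_Ioo.1 h1
    have h3' := Finset.mem_Ioo.1 h1'
    rcases lt_or_gt_of_ne hne with h | h
    · left
      obtain ⟨u, rfl⟩ : ∃ u, s = u + 1 := ⟨s - 1, by omega⟩
      exact blk_down hn M (by omega) h2 (u - s') s' (by omega)
    · right
      obtain ⟨u, rfl⟩ : ∃ u, s' = u + 1 := ⟨s' - 1, by omega⟩
      exact blk_down hn M (by omega) h2' (u - s) s (by omega))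
  have hup : ∀ s ∈ T.filter (fun s => ¬ B s),
      Blk hn (fun v => ((pos v).1 : ℝ)) (fun v => ((pos v).2 : ℝ)) X s (s + 1) := by
    intro s hs
    obtain ⟨h1, h2⟩ := Finset.mem_filter.1 hs
    have h3 := Finset.mem_Ioo.1 h1
    obtain ⟨u, rfl⟩ : ∃ u, s = u + 1 := ⟨s - 1, by omega⟩
    exact (blk_or hn M (by omega)).resolve_left h2
  have hJ := hcount (T.filter (fun s => ¬ B s)) (fun s hs => by
      have := Finset.mem_Ioo.1 (Finset.mem_filter.1 hs).1; omega) (by
    intro s hs s' hs' hne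
    have h3 := Finset.mem_Ioo.1 (Finset.mem_filter.1 hs).1
    have h3' := Finset.mem_Ioo.1 (Finset.mem_filter.1 hs').1
    rcases lt_or_gt_of_ne hne with h | h
    · right
      have := blk_up hn M (hup s' hs') (s - s' - 1) (by omega)
      rwa [show s' + 1 + (s - s' - 1) = s by omega] at this
    · left
      have := blk_up hn M (hup s hs) (s' - s - 1) (by omega)
      rwa [show s + 1 + (s' - s - 1) = s' by omega] at this)
  have hsum := Finset.card_filter_add_card_filter_not (s := T) B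
  rw [hT, Nat.card_Ioo, ← hT] at hsum
  have hbig : n ≤ 16 * ((T.filter B).card - 1) ∨
      n ≤ 16 * ((T.filter (fun s => ¬ B s)).card - 1) := by omega
  have fin : ∀ c : ℕ, n ≤ 16 * (c - 1) → (c : ℝ) ≤ W + 1 → (c : ℝ) ≤ H + 1 →
      (n : ℝ) ^ 2 / 256 ≤ W * H := by
    intro c h1 h2 h3
    have h4 : n + 16 ≤ 16 * c := by omega
    have h5 : (n : ℝ) + 16 ≤ 16 * c := by exact_mod_cast h4
    have h6 : (n : ℝ) / 16 ≤ W := by linarith
    have h7 : (n : ℝ) / 16 ≤ H := by linarith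
    calc (n : ℝ) ^ 2 / 256 = (n : ℝ) / 16 * ((n : ℝ) / 16) := by ring
      _ ≤ W * H := mul_le_mul h6 h7 (by positivity) hW
  rcases hbig with h | h
  · exact fin _ h hI.1 hI.2
  · exact fin _ h hJ.1 hJ.2

end Pool.Agent.MP_9caa86_co.H42
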