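import Pool.Agent.MP_9caa86_co.H42.Defs

/-! Upward drawings with the edges written as graphs of functions of the height. -/

open Set

namespace Pool.Agent.MP_9caa86_co.H42

/-- Upward planar drawing in function form. -/
structure Mono {n : ℕ} (E : Finset (Fin n × Fin n)) (px py : Fin n → ℝ)
    (X : Fin n × Fin n → ℝ → ℝ) : Prop where
  inj : ∀ v w, px v = px w → py v = py w → v = w
  lt : ∀ e ∈ E, py e.1 < py e.2
  cont : ∀ e ∈ E, ContinuousOn (X e) (Icc (py e.1) (py e.2))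
  left : ∀ e ∈ E, X e (py e.1) = px e.1
  right : ∀ e ∈ E, X e (py e.2) = px e.2
  nocross : ∀ e ∈ E, ∀ f ∈ E, e ≠ f → ∀ y, y ∈ Icc (py e.1) (py e.2) →
    y ∈ Icc (py f.1) (py f.2) → X e y = X f y →
    ∃ v, (v = e.1 ∨ v = e.2) ∧ (v = f.1 ∨ v = f.2) ∧ py v = y

lemma curve_graph {γ : ℝ → ℝ × ℝ} (hc : ContinuousOn γ (Icc 0 1))
    (hm : StrictMonoOn (fun t => (γ t).2) (Icc 0 1)) :
    ∃ X : ℝ → ℝ, ContinuousOn X (Icc (γ 0).2 (γ 1).2) ∧ X (γ 0).2 = (γ 0).1 ∧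
      X (γ 1).2 = (γ 1).1 ∧ ∀ y ∈ Icc (γ 0).2 (γ 1).2, (X y, y) ∈ γ '' Icc 0 1 := by
  classical
  set h : ℝ → ℝ := fun t => (γ t).2 with hh
  have hch : ContinuousOn h (Icc 0 1) := continuous_snd.comp_continuousOn hc
  have himg : h '' Icc 0 1 = Icc (h 0) (h 1) := by
    refine Subset.antisymm ?_ (intermediate_value_Icc zero_le_one hch)
    rintro _ ⟨t, ht, rfl⟩
    exact ⟨hm.monotoneOn (left_mem_Icc.2 zero_le_one) ht ht.1,
      hm.monotoneOn ht (right_mem_Icc.2 zero_le_one) ht.2⟩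
  let iso : Icc (0 : ℝ) 1 ≃o Icc (h 0) (h 1) :=
    (hm.orderIso h (Icc 0 1)).trans (OrderIso.setCongr _ _ himg)
  have hiso : ∀ t : Icc (0 : ℝ) 1, (iso t : ℝ) = h t := fun t => rfl
  let τ : ℝ → ℝ := fun y => if hy : y ∈ Icc (h 0) (h 1) then (iso.symm ⟨y, hy⟩ : ℝ) else 0
  have hτ1 : ∀ y ∈ Icc (h 0) (h 1), τ y ∈ Icc (0 : ℝ) 1 := by
    intro y hy
    simp only [τ, dif_pos hy]
    exact (iso.symm ⟨y, hy⟩).2
  have hτ2 : ∀ y ∈ Icc (h 0) (h 1), h (τ y) = y := by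
    intro y hy
    simp only [τ, dif_pos hy]
    rw [← hiso, iso.apply_symm_apply]
  have hτc : ContinuousOn τ (Icc (h 0) (h 1)) := by
    rw [continuousOn_iff_continuous_domRestrict]
    have : (Icc (h 0) (h 1)).domRestrict τ = fun y => (iso.symm y : ℝ) := by
      funext y
      simp only [domRestrict_apply, τ, dif_pos y.2]
    rw [this]
    exact continuous_subtype_val.comp iso.symm.continuous
  have h01 : h 0 ≤ h 1 :=
    hm.monotoneOn (left_mem_Icc.2 zero_le_one) (right_mem_Icc.2 zero_le_one) zero_le_one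
  refine ⟨fun y => (γ (τ y)).1, ?_, ?_, ?_, ?_⟩
  · exact continuous_fst.comp_continuousOn (hc.comp hτc hτ1)
  · have : τ (h 0) = 0 := hm.injOn (hτ1 _ (left_mem_Icc.2 h01)) (left_mem_Icc.2 zero_le_one)
      (hτ2 _ (left_mem_Icc.2 h01))
    change (γ (τ (h 0))).1 = _
    rw [this]
  · have : τ (h 1) = 1 := hm.injOn (hτ1 _ (right_mem_Icc.2 h01)) (right_mem_Icc.2 zero_le_one)
      (hτ2 _ (right_mem_Icc.2 h01))
    change (γ (τ (h 1))).1 = _
    rw [this]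
  · intro y hy
    exact ⟨τ y, hτ1 y hy, Prod.ext rfl (hτ2 y hy)⟩

lemma UpwardPlanar.mono {n : ℕ} {E : Finset (Fin n × Fin n)} (h : UpwardPlanar E) :
    ∃ px py X, Mono E px py X := by
  classical
  obtain ⟨pos, γ, hinj, hγ, hnc⟩ := h
  have key : ∀ e : Fin n × Fin n, ∃ X : ℝ → ℝ, e ∈ E →
      ContinuousOn X (Icc (pos e.1).2 (pos e.2).2) ∧ X (pos e.1).2 = (pos e.1).1 ∧
      X (pos e.2).2 = (pos e.2).1 ∧ ∀ y ∈ Icc (pos e.1).2 (pos e.2).2, (X y, y) ∈ γ e '' Icc 0 1 := by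
    intro e
    by_cases he : e ∈ E
    · obtain ⟨h1, h2, h3, h4⟩ := hγ e he
      obtain ⟨X, hX⟩ := curve_graph h1 h4
      rw [h2, h3] at hX
      exact ⟨X, fun _ => hX⟩
    · exact ⟨0, fun h => absurd h he⟩
  choose X hX using key
  refine ⟨fun v => (pos v).1, fun v => (pos v).2, X, ?_, ?_, fun e he => (hX e he).1,
    fun e he => (hX e he).2.1, fun e he => (hX e he).2.2.1, ?_⟩
  · intro v w h1 h2
    exact hinj (Prod.ext h1 h2)
  · intro e he
    obtain ⟨_, h2, h3, h4⟩ := hγ e he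
    have := h4 (left_mem_Icc.2 zero_le_one) (right_mem_Icc.2 zero_le_one) zero_lt_one
    simpa [h2, h3] using this
  · intro e he f hf hne y hye hyf hxy
    obtain ⟨v, h1, h2, h3⟩ := hnc e he f hf hne (X e y, y)
      ⟨(hX e he).2.2.2 y hye, by rw [hxy]; exact (hX f hf).2.2.2 y hyf⟩
    exact ⟨v, h1, h2, by rw [← h3]⟩

lemma segment_graph {p q : ℤ × ℤ} (h : p.2 < q.2) :
    ∃ X : ℝ → ℝ, Continuous X ∧ X p.2 = p.1 ∧ X q.2 = q.1 ∧
      ∀ y ∈ Icc (p.2 : ℝ) q.2, (X y, y) ∈ segment ℝ (toR p) (toR q) ∧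
        ((p.1 : ℝ) ≤ X y ∨ (q.1 : ℝ) ≤ X y) := by
  have h' : (0 : ℝ) < (q.2 : ℝ) - p.2 := by
    have : (p.2 : ℝ) < q.2 := by exact_mod_cast h
    linarith
  refine ⟨fun y => p.1 + (y - p.2) / (q.2 - p.2) * (q.1 - p.1), by fun_prop, by simp, ?_, ?_⟩
  · simp only
    rw [div_self h'.ne']; ring
  · intro y hy
    set t : ℝ := (y - p.2) / (q.2 - p.2) with ht
    have ht0 : 0 ≤ t := div_nonneg (by linarith [hy.1]) h'.le
    have ht1 : t ≤ 1 := (div_le_one h').2 (by linarith [hy.2])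
    refine ⟨⟨1 - t, t, by linarith, ht0, by ring, ?_⟩, ?_⟩
    · refine Prod.ext ?_ ?_
      · simp [toR]; ring
      · have : t * (q.2 - p.2) = y - p.2 := by rw [ht]; field_simp
        simp [toR]; linarith
    · rcases le_total (p.1 : ℝ) q.1 with h1 | h1
      · left; nlinarith
      · right; nlinarith

lemma chain_graph : ∀ (l : List (ℤ × ℤ)) (p q : ℤ × ℤ),
    List.IsChain (fun p q : ℤ × ℤ => p.2 < q.2) (p :: (l ++ [q])) →
    p.2 < q.2 ∧ ∃ X : ℝ → ℝ, Continuous X ∧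
      (∀ r ∈ p :: (l ++ [q]), X r.2 = r.1 ∧ p.2 ≤ r.2 ∧ r.2 ≤ q.2 ∧
        toR r ∈ chain (p :: (l ++ [q]))) ∧
      ∀ y ∈ Icc (p.2 : ℝ) q.2, (X y, y) ∈ chain (p :: (l ++ [q])) ∧
        ∃ r ∈ p :: (l ++ [q]), (r.1 : ℝ) ≤ X y := by
  intro l
  induction l with
  | nil =>
    intro p q h
    have hpq : p.2 < q.2 := by simpa using h
    obtain ⟨X, h1, h2, h3, h4⟩ := segment_graph hpq
    refine ⟨hpq, X, h1, ?_, ?_⟩
    · intro r hr
      simp only [List.nil_append, List.mem_cons, List.not_mem_nil, or_false] at hr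
      rcases hr with rfl | rfl
      · exact ⟨h2, le_rfl, hpq.le, Or.inl (left_mem_segment ℝ _ _)⟩
      · exact ⟨h3, hpq.le, le_rfl, Or.inl (right_mem_segment ℝ _ _)⟩
    · intro y hy
      refine ⟨Or.inl (h4 y hy).1, ?_⟩
      rcases (h4 y hy).2 with h5 | h5
      · exact ⟨p, by simp, h5⟩
      · exact ⟨q, by simp, h5⟩
  | cons r l ih =>
    intro p q h
    rw [List.cons_append, List.isChain_cons_cons] at h
    obtain ⟨hpr, h'⟩ := h
    obtain ⟨hrq, Y, g1, g2, g3⟩ := ih r q h'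
    obtain ⟨X, h1, h2, h3, h4⟩ := segment_graph hpr
    have hYr : Y r.2 = r.1 := (g2 r (by simp)).1
    refine ⟨hpr.trans hrq, fun y => if y ≤ (r.2 : ℝ) then X y else Y y, ?_, ?_, ?_⟩
    · refine Continuous.if_le h1 g1 continuous_id continuous_const ?_
      intro y hy
      have hy' : y = (r.2 : ℝ) := hy
      rw [hy', h3, hYr]
    · intro s hs
      rw [List.cons_append] at hs
      rcases List.mem_cons.1 hs with rfl | hs
      · have : (s.2 : ℝ) ≤ r.2 := by exact_mod_cast hpr.le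
        refine ⟨by simp only [if_pos this, h2], le_rfl, (hpr.trans hrq).le,
          Or.inl (left_mem_segment ℝ _ _)⟩
      · obtain ⟨e1, e2, e3, e4⟩ := g2 s hs
        refine ⟨?_, hpr.le.trans e2, e3, Or.inr e4⟩
        by_cases hsr : (s.2 : ℝ) ≤ r.2
        · have e5 : (s.2 : ℝ) = r.2 := le_antisymm hsr (by exact_mod_cast e2)
          simp only [if_pos hsr]
          rw [e5, h3, ← hYr, ← e5, e1]
        · simp only [if_neg hsr, e1]
    · intro y hy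
      by_cases hyr : y ≤ (r.2 : ℝ)
      · simp only [if_pos hyr]
        refine ⟨Or.inl (h4 y ⟨hy.1, hyr⟩).1, ?_⟩
        rcases (h4 y ⟨hy.1, hyr⟩).2 with h5 | h5
        · exact ⟨p, by simp, h5⟩
        · exact ⟨r, by simp, h5⟩
      · simp only [if_neg hyr]
        obtain ⟨e1, s, hs, e2⟩ := g3 y ⟨(not_le.1 hyr).le, hy.2⟩
        exact ⟨Or.inr e1, s, List.mem_cons_of_mem _ hs, e2⟩

lemma toR_injective : Function.Injective toR := by
  intro p q h
  have h1 := congrArg Prod.fst h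
  have h2 := congrArg Prod.snd h
  simp only [toR, Int.cast_inj] at h1 h2
  exact Prod.ext h1 h2

lemma IsPolyDrawing.mono {n : ℕ} {E : Finset (Fin n × Fin n)} {pos : Fin n → ℤ × ℤ}
    {bends : Fin n × Fin n → List (ℤ × ℤ)} (h : IsPolyDrawing E pos bends) :
    ∃ X, Mono E (fun v => ((pos v).1 : ℝ)) (fun v => ((pos v).2 : ℝ)) X ∧
      ∀ e ∈ E, (∀ r ∈ pts pos bends e, X e r.2 = r.1 ∧ (pos e.1).2 ≤ r.2 ∧ r.2 ≤ (pos e.2).2 ∧
        toR r ∈ chain (pts pos bends e)) ∧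
      ∀ y ∈ Icc ((pos e.1).2 : ℝ) (pos e.2).2, ∃ r ∈ pts pos bends e, (r.1 : ℝ) ≤ X e y := by
  classical
  obtain ⟨hinj, hch, hnc⟩ := h
  have key : ∀ e : Fin n × Fin n, ∃ X : ℝ → ℝ, e ∈ E → (pos e.1).2 < (pos e.2).2 ∧
      Continuous X ∧
      (∀ r ∈ pts pos bends e, X r.2 = r.1 ∧ (pos e.1).2 ≤ r.2 ∧ r.2 ≤ (pos e.2).2 ∧
        toR r ∈ chain (pts pos bends e)) ∧
      ∀ y ∈ Icc ((pos e.1).2 : ℝ) (pos e.2).2, (X y, y) ∈ chain (pts pos bends e) ∧
        ∃ r ∈ pts pos bends e, (r.1 : ℝ) ≤ X y := by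
    intro e
    by_cases he : e ∈ E
    · obtain ⟨h1, X, hX⟩ := chain_graph _ _ _ (hch e he)
      exact ⟨X, fun _ => ⟨h1, hX⟩⟩
    · exact ⟨0, fun h => absurd h he⟩
  choose X hX using key
  refine ⟨X, ⟨?_, ?_, fun e he => (hX e he).2.1.continuousOn, ?_, ?_, ?_⟩,
    fun e he => ⟨(hX e he).2.2.1, fun y hy => ((hX e he).2.2.2 y hy).2⟩⟩
  · intro v w h1 h2
    exact hinj (Prod.ext (by exact_mod_cast h1) (by exact_mod_cast h2))
  · intro e he
    exact_mod_cast (hX e he).1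
  · intro e he
    exact ((hX e he).2.2.1 (pos e.1) (by simp [pts])).1
  · intro e he
    exact ((hX e he).2.2.1 (pos e.2) (by simp [pts])).1
  · intro e he f hf hne y hye hyf hxy
    obtain ⟨v, h1, h2, h3⟩ := hnc e he f hf hne (X e y, y)
      ⟨((hX e he).2.2.2 y hye).1, by rw [hxy]; exact ((hX f hf).2.2.2 y hyf).1⟩
    exact ⟨v, h1, h2, (congrArg Prod.snd h3).symm⟩

section

variable {n : ℕ} {E : Finset (Fin n × Fin n)} {px py : Fin n → ℝ} {X : Fin n × Fin n → ℝ → ℝ}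

/-- Two edges that do not meet over an interval of heights keep their relative position. -/
lemma Mono.side (M : Mono E px py X) {e f : Fin n × Fin n} (he : e ∈ E) (hf : f ∈ E)
    {y0 y1 : ℝ} (h01 : y0 ≤ y1) (he0 : py e.1 ≤ y0) (he1 : y1 ≤ py e.2) (hf0 : py f.1 ≤ y0)
    (hf1 : y1 ≤ py f.2) (hne : ∀ y ∈ Icc y0 y1, X e y ≠ X f y) :
    X e y0 < X f y0 ↔ X e y1 < X f y1 := by
  have hc : ContinuousOn (fun y => X e y - X f y) (Icc y0 y1) :=
    ((M.cont e he).mono (Icc_subset_Icc he0 he1)).sub ((M.cont f hf).mono (Icc_subset_Icc hf0 hf1))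
  have n0 := hne y0 (left_mem_Icc.2 h01)
  have n1 := hne y1 (right_mem_Icc.2 h01)
  constructor
  · intro h
    by_contra h'
    obtain ⟨y, hy, hy0⟩ := intermediate_value_Icc h01 hc
      (show (0 : ℝ) ∈ Icc (X e y0 - X f y0) (X e y1 - X f y1) from
        ⟨by linarith, by linarith [not_lt.1 h']⟩)
    exact hne y hy (sub_eq_zero.1 hy0)
  · intro h
    by_contra h'
    obtain ⟨y, hy, hy0⟩ := intermediate_value_Icc' h01 hc
      (show (0 : ℝ) ∈ Icc (X e y1 - X f y1) (X e y0 - X f y0) from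
        ⟨by linarith, by linarith [not_lt.1 h']⟩)
    exact hne y hy (sub_eq_zero.1 hy0)

/-- Edges without a common endpoint do not meet. -/
lemma Mono.ne_of_disj (M : Mono E px py X) {e f : Fin n × Fin n} (he : e ∈ E) (hf : f ∈ E)
    (h11 : e.1 ≠ f.1) (h12 : e.1 ≠ f.2) (h21 : e.2 ≠ f.1) (h22 : e.2 ≠ f.2) {y : ℝ}
    (hye : y ∈ Icc (py e.1) (py e.2)) (hyf : y ∈ Icc (py f.1) (py f.2)) : X e y ≠ X f y := by
  intro h
  obtain ⟨v, h1, h2, _⟩ := M.nocross e he f hf (fun hh => h11 (by rw [hh])) y hye hyf h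
  rcases h1 with rfl | rfl <;> rcases h2 with h2 | h2 <;> contradiction

lemma Mono.side_disj (M : Mono E px py X) {e f : Fin n × Fin n} (he : e ∈ E) (hf : f ∈ E)
    (h11 : e.1 ≠ f.1) (h12 : e.1 ≠ f.2) (h21 : e.2 ≠ f.1) (h22 : e.2 ≠ f.2)
    {y0 y1 : ℝ} (h01 : y0 ≤ y1) (he0 : py e.1 ≤ y0) (he1 : y1 ≤ py e.2) (hf0 : py f.1 ≤ y0)
    (hf1 : y1 ≤ py f.2) : X e y0 < X f y0 ↔ X e y1 < X f y1 :=
  M.side he hf h01 he0 he1 hf0 hf1 fun _ hy => M.ne_of_disj he hf h11 h12 h21 h22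
    ⟨he0.trans hy.1, hy.2.trans he1⟩ ⟨hf0.trans hy.1, hy.2.trans hf1⟩

end

end Pool.Agent.MP_9caa86_co.H42
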