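import Pool.Agent.MP_9caa86_co.H42.Mono

/-! Crossing parity with respect to a four-cycle of an upward drawing. -/

open Set

namespace Pool.Agent.MP_9caa86_co.H42

open Classical in
/-- Indicator with values in `ZMod 2`. -/
noncomputable def chi (P : Prop) : ZMod 2 := if P then 1 else 0

lemma chi_pos {P : Prop} (h : P) : chi P = 1 := by simp [chi, h]

lemma chi_neg {P : Prop} (h : ¬ P) : chi P = 0 := by simp [chi, h]

lemma chi_congr {P Q : Prop} (h : P ↔ Q) : chi P = chi Q := by rw [propext h]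

lemma chi_add_self (a : ZMod 2) : a + a = 0 := by revert a; decide

lemma chi_not (P : Prop) : chi (¬ P) = 1 + chi P := by
  by_cases h : P
  · rw [chi_pos h, chi_neg (not_not.2 h)]; decide
  · rw [chi_pos h, chi_neg h]; decide

/-- The edge `g` passes strictly to the left of the point `(x, y)`. -/
def LeftOf {n : ℕ} (py : Fin n → ℝ) (X : Fin n × Fin n → ℝ → ℝ) (g : Fin n × Fin n)
    (x y : ℝ) : Prop := py g.1 ≤ y ∧ y < py g.2 ∧ X g y < x

/-- Parity for the path `a - t - b`. -/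
noncomputable def pth {n : ℕ} (py : Fin n → ℝ) (X : Fin n × Fin n → ℝ → ℝ) (a b t : Fin n)
    (x y : ℝ) : ZMod 2 := chi (LeftOf py X (a, t) x y) + chi (LeftOf py X (b, t) x y)

/-- Parity for the four-cycle `a - t - b - t'`. -/
noncomputable def cyc {n : ℕ} (py : Fin n → ℝ) (X : Fin n × Fin n → ℝ → ℝ) (a b t t' : Fin n)
    (x y : ℝ) : ZMod 2 := pth py X a b t x y + pth py X a b t' x y

section

variable {n : ℕ} {E : Finset (Fin n × Fin n)} {px py : Fin n → ℝ} {X : Fin n × Fin n → ℝ → ℝ}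

lemma Mono.single (M : Mono E px py X) {e g : Fin n × Fin n} (he : e ∈ E) (hg : g ∈ E)
    (h11 : g.1 ≠ e.1) (h12 : g.1 ≠ e.2) (h21 : g.2 ≠ e.1) (h22 : g.2 ≠ e.2)
    {y0 y1 : ℝ} (h01 : y0 ≤ y1) (he0 : py e.1 ≤ y0) (he1 : y1 ≤ py e.2) :
    chi (LeftOf py X g (X e y1) y1) + chi (LeftOf py X g (X e y0) y0)
      = chi (y0 < py g.1 ∧ py g.1 ≤ y1 ∧ px g.1 < X e (py g.1))
        + chi (y0 < py g.2 ∧ py g.2 ≤ y1 ∧ px g.2 < X e (py g.2)) := by
  have hlt := M.lt g hg
  have S := fun {u w : ℝ} (h : u ≤ w) (a1 : py g.1 ≤ u) (a2 : w ≤ py g.2) (a3 : py e.1 ≤ u)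
    (a4 : w ≤ py e.2) => M.side_disj hg he h11 h12 h21 h22 h a1 a2 a3 a4
  unfold LeftOf
  rcases le_or_gt (py g.1) y0 with c1 | c1
  · rw [chi_neg (P := y0 < py g.1 ∧ _) (fun h => absurd h.1 (not_lt.2 c1)), zero_add]
    rcases le_or_gt (py g.2) y0 with c2 | c2
    · rw [chi_neg (fun h => absurd h.2.1 (not_lt.2 (c2.trans h01))),
        chi_neg (fun h => absurd h.2.1 (not_lt.2 c2)),
        chi_neg (fun h => absurd h.1 (not_lt.2 c2)), add_zero]
    · rcases le_or_gt (py g.2) y1 with c3 | c3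
      · rw [chi_neg (fun h => absurd h.2.1 (not_lt.2 c3)), zero_add]
        refine chi_congr ?_
        have := S c2.le c1 le_rfl he0 (c3.trans he1)
        rw [M.right g hg] at this
        simp only [c1, c2, c3, true_and, this]
      · rw [chi_neg (P := y0 < py g.2 ∧ _) (fun h => absurd h.2.1 (not_le.2 c3))]
        have := S h01 c1 c3.le he0 he1
        rw [chi_congr (Q := py g.1 ≤ y0 ∧ y0 < py g.2 ∧ X g y0 < X e y0), chi_add_self]
        simp only [c1, c2, c3, c1.trans h01, true_and, this]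
  · rw [chi_neg (P := py g.1 ≤ y0 ∧ _) (fun h => absurd h.1 (not_le.2 c1)), add_zero]
    rcases le_or_gt (py g.1) y1 with c2 | c2
    · rcases le_or_gt (py g.2) y1 with c3 | c3
      · rw [chi_neg (fun h => absurd h.2.1 (not_lt.2 c3))]
        have := S hlt.le le_rfl le_rfl (he0.trans c1.le) (c3.trans he1)
        rw [M.left g hg, M.right g hg] at this
        rw [chi_congr (Q := y0 < py g.2 ∧ py g.2 ≤ y1 ∧ px g.2 < X e (py g.2)), chi_add_self]
        simp only [c1, c2, c3, c1.trans hlt, true_and, this]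
      · rw [chi_neg (P := y0 < py g.2 ∧ _) (fun h => absurd h.2.1 (not_le.2 c3)), add_zero]
        refine chi_congr ?_
        have := S c2 le_rfl c3.le (he0.trans c1.le) he1
        rw [M.left g hg] at this
        simp only [c1, c2, c3, true_and, this]
    · rw [chi_neg (fun h => absurd h.1 (not_le.2 c2)),
        chi_neg (fun h => absurd h.2.1 (not_le.2 c2)),
        chi_neg (fun h => absurd h.2.1 (not_le.2 (c2.trans hlt))), add_zero]

lemma Mono.cyc_const (M : Mono E px py X) {e : Fin n × Fin n} (he : e ∈ E) {a b t t' : Fin n}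
    (h1 : (a, t) ∈ E) (h2 : (b, t) ∈ E) (h3 : (a, t') ∈ E) (h4 : (b, t') ∈ E)
    (a1 : a ≠ e.1) (a2 : a ≠ e.2) (b1 : b ≠ e.1) (b2 : b ≠ e.2)
    (t1 : t ≠ e.1) (t2 : t ≠ e.2) (s1 : t' ≠ e.1) (s2 : t' ≠ e.2)
    {y : ℝ} (he0 : py e.1 ≤ y) (he1 : y ≤ py e.2) :
    cyc py X a b t t' (X e y) y = cyc py X a b t t' (px e.1) (py e.1) := by
  have e1 := M.single he h1 a1 a2 t1 t2 he0 le_rfl he1
  have e2 := M.single he h2 b1 b2 t1 t2 he0 le_rfl he1
  have e3 := M.single he h3 a1 a2 s1 s2 he0 le_rfl he1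
  have e4 := M.single he h4 b1 b2 s1 s2 he0 le_rfl he1
  rw [M.left e he] at e1 e2 e3 e4
  unfold cyc pth
  simp only at e1 e2 e3 e4
  revert e1 e2 e3 e4
  generalize chi (LeftOf py X (a, t) (X e y) y) = A1
  generalize chi (LeftOf py X (b, t) (X e y) y) = A2
  generalize chi (LeftOf py X (a, t') (X e y) y) = A3
  generalize chi (LeftOf py X (b, t') (X e y) y) = A4
  generalize chi (LeftOf py X (a, t) (px e.1) (py e.1)) = B1
  generalize chi (LeftOf py X (b, t) (px e.1) (py e.1)) = B2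
  generalize chi (LeftOf py X (a, t') (px e.1) (py e.1)) = B3
  generalize chi (LeftOf py X (b, t') (px e.1) (py e.1)) = B4
  generalize chi (py e.1 < py a ∧ py a ≤ y ∧ px a < X e (py a)) = C1
  generalize chi (py e.1 < py b ∧ py b ≤ y ∧ px b < X e (py b)) = C2
  generalize chi (py e.1 < py t ∧ py t ≤ y ∧ px t < X e (py t)) = C3
  generalize chi (py e.1 < py t' ∧ py t' ≤ y ∧ px t' < X e (py t')) = C4
  intro e1 e2 e3 e4
  have h2z : (2 : ZMod 2) = 0 := rfl
  linear_combination e1 + e2 + e3 + e4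
    + (C1 + C2 + C3 + C4 - B1 - B2 - B3 - B4) * h2z

lemma Mono.pair_aux (M : Mono E px py X) {a b s t : Fin n} (hab : a ≠ b) (hst : s ≠ t)
    (has : a ≠ s) (hat : a ≠ t) (hbs : b ≠ s) (hbt : b ≠ t)
    (h1 : (a, s) ∈ E) (h2 : (b, s) ∈ E) (h3 : (a, t) ∈ E) (h4 : (b, t) ∈ E)
    (hy : py a ≤ py b) (hz : py s ≤ py t) :
    pth py X a b t (px s) (py s) + pth py X a b s (px t) (py t)
      = 1 + chi (X (a, s) (py b) < px b) + chi (X (a, t) (py b) < px b) := by
  have hbs' : py b < py s := M.lt _ h2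
  have S1 := M.side_disj h1 h4 hab hat hbs.symm hst hbs'.le hy le_rfl le_rfl hz
  have S2 := M.side_disj h3 h2 hab has hbt.symm hst.symm hbs'.le hy hz le_rfl le_rfl
  have L1 := M.left _ h4
  have L2 := M.left _ h2
  have R1 := M.right _ h1
  have R2 := M.right _ h2
  simp only at S1 S2 L1 L2 R1 R2
  rw [L1, R1] at S1
  rw [L2, R2] at S2
  have N1 : X (a, s) (py s) ≠ X (b, t) (py s) :=
    M.ne_of_disj h1 h4 hab hat hbs.symm hst ⟨hy.trans hbs'.le, le_rfl⟩ ⟨hbs'.le, hz⟩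
  rw [R1] at N1
  unfold pth LeftOf
  rw [chi_neg (P := py (a, s).1 ≤ py t ∧ _) (fun h => absurd h.2.1 (not_lt.2 hz)),
    chi_neg (P := py (b, s).1 ≤ py t ∧ _) (fun h => absurd h.2.1 (not_lt.2 hz)), add_zero,
    add_zero, chi_congr S1, chi_congr S2]
  rcases eq_or_lt_of_le hz with hz' | hz'
  · rw [chi_neg (fun h => absurd h.2.1 (by simp [hz'])),
      chi_neg (fun h => absurd h.2.1 (by simp [hz']))]
    have R3 := M.right _ h3
    have R4 := M.right _ h4
    simp only at R3 R4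
    rw [hz', R3, R4]
    have hne : px s ≠ px t := fun h => hst (M.inj _ _ h hz')
    rcases lt_or_gt_of_ne hne with h | h
    · rw [chi_pos h, chi_neg (not_lt.2 h.le)]; decide
    · rw [chi_pos h, chi_neg (not_lt.2 h.le)]; decide
  · have q1 : chi (py (a, t).1 ≤ py s ∧ py s < py (a, t).2 ∧ X (a, t) (py s) < px s)
        = chi (X (a, t) (py s) < px s) :=
      chi_congr ⟨fun h => h.2.2, fun h => ⟨hy.trans hbs'.le, hz', h⟩⟩
    have q2 : chi (py (b, t).1 ≤ py s ∧ py s < py (b, t).2 ∧ X (b, t) (py s) < px s)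
        = chi (¬ px s < X (b, t) (py s)) :=
      chi_congr ⟨fun h => not_lt.2 h.2.2.le,
        fun h => ⟨hbs'.le, hz', lt_of_le_of_ne (not_lt.1 h) N1.symm⟩⟩
    rw [q1, q2, chi_not]
    ring

lemma Mono.pair (M : Mono E px py X) {a b s t : Fin n} (hab : a ≠ b) (hst : s ≠ t)
    (has : a ≠ s) (hat : a ≠ t) (hbs : b ≠ s) (hbt : b ≠ t)
    (h1 : (a, s) ∈ E) (h2 : (b, s) ∈ E) (h3 : (a, t) ∈ E) (h4 : (b, t) ∈ E)
    (hy : py a ≤ py b) :
    pth py X a b t (px s) (py s) + pth py X a b s (px t) (py t)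
      = 1 + chi (X (a, s) (py b) < px b) + chi (X (a, t) (py b) < px b) := by
  rcases le_total (py s) (py t) with hz | hz
  · exact M.pair_aux hab hst has hat hbs hbt h1 h2 h3 h4 hy hz
  · rw [add_comm, M.pair_aux hab hst.symm hat has hbt hbs h3 h4 h1 h2 hy hz]; ring

lemma pth_comm (a b t : Fin n) (x y : ℝ) : pth py X a b t x y = pth py X b a t x y := by
  unfold pth; ring

/-- The theta lemma for `K_{2,3}`. -/
lemma Mono.theta (M : Mono E px py X) {a b s t u : Fin n} (hab : a ≠ b) (hst : s ≠ t)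
    (hsu : s ≠ u) (htu : t ≠ u) (has : a ≠ s) (hat : a ≠ t) (hau : a ≠ u) (hbs : b ≠ s)
    (hbt : b ≠ t) (hbu : b ≠ u)
    (h1 : (a, s) ∈ E) (h2 : (b, s) ∈ E) (h3 : (a, t) ∈ E) (h4 : (b, t) ∈ E)
    (h5 : (a, u) ∈ E) (h6 : (b, u) ∈ E) :
    cyc py X a b t u (px s) (py s) + cyc py X a b s u (px t) (py t)
      + cyc py X a b s t (px u) (py u) = 1 := by
  have h2z : (2 : ZMod 2) = 0 := rfl
  unfold cyc
  rcases le_total (py a) (py b) with hy | hy
  · have e1 := M.pair hab hst has hat hbs hbt h1 h2 h3 h4 hy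
    have e2 := M.pair hab hsu has hau hbs hbu h1 h2 h5 h6 hy
    have e3 := M.pair hab htu hat hau hbt hbu h3 h4 h5 h6 hy
    linear_combination e1 + e2 + e3 + (1 + chi (X (a, s) (py b) < px b)
      + chi (X (a, t) (py b) < px b) + chi (X (a, u) (py b) < px b)) * h2z
  · have e1 := M.pair hab.symm hst hbs hbt has hat h2 h1 h4 h3 hy
    have e2 := M.pair hab.symm hsu hbs hbu has hau h2 h1 h6 h5 hy
    have e3 := M.pair hab.symm htu hbt hbu hat hau h4 h3 h6 h5 hy
    simp only [pth_comm b a] at e1 e2 e3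
    linear_combination e1 + e2 + e3 + (1 + chi (X (b, s) (py a) < px a)
      + chi (X (b, t) (py a) < px a) + chi (X (b, u) (py a) < px a)) * h2z

/-- One of the two sides attached to a four-cycle is inside it. -/
lemma Mono.inside_or (M : Mono E px py X) {a b s t u z : Fin n} (hab : a ≠ b) (hst : s ≠ t)
    (hsu : s ≠ u) (htu : t ≠ u) (has : a ≠ s) (hat : a ≠ t) (hau : a ≠ u) (hbs : b ≠ s)
    (hbt : b ≠ t) (hbu : b ≠ u) (haz : a ≠ z) (hbz : b ≠ z) (hsz : s ≠ z) (htz : t ≠ z)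
    (huz : u ≠ z)
    (h1 : (a, s) ∈ E) (h2 : (b, s) ∈ E) (h3 : (a, t) ∈ E) (h4 : (b, t) ∈ E)
    (h5 : (a, u) ∈ E) (h6 : (b, u) ∈ E) (h7 : (z, s) ∈ E) (h8 : (z, t) ∈ E) :
    cyc py X a b s t (px z) (py z) = 1 ∨ cyc py X a b s t (px u) (py u) = 1 := by
  have T := M.theta hab hst hsu htu has hat hau hbs hbt hbu h1 h2 h3 h4 h5 h6
  have c1 := M.cyc_const h7 h3 h4 h5 h6 haz has hbz hbs htz hst.symm huz hsu.symm
    (M.lt _ h7).le le_rfl
  have c2 := M.cyc_const h8 h1 h2 h5 h6 haz hat hbz hbt hsz hst huz htu.symm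
    (M.lt _ h8).le le_rfl
  rw [M.right _ h7] at c1
  rw [M.right _ h8] at c2
  simp only at c1 c2
  rw [c1, c2] at T
  have h2z : (2 : ZMod 2) = 0 := rfl
  have : cyc py X a b s t (px z) (py z) + cyc py X a b s t (px u) (py u) = 1 := by
    unfold cyc at T ⊢
    linear_combination T - pth py X a b u (px z) (py z) * h2z
  revert this
  generalize cyc py X a b s t (px z) (py z) = A
  generalize cyc py X a b s t (px u) (py u) = B
  revert A B
  decide

lemma exists_of_cyc {a b s t : Fin n} {x y : ℝ} (h : cyc py X a b s t x y = 1) :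
    ∃ g, (g = (a, s) ∨ g = (b, s) ∨ g = (a, t) ∨ g = (b, t)) ∧ LeftOf py X g x y := by
  by_contra hcon
  push Not at hcon
  unfold cyc pth at h
  rw [chi_neg (hcon _ (by simp)), chi_neg (hcon _ (by simp)), chi_neg (hcon _ (by simp)),
    chi_neg (hcon _ (by simp))] at h
  revert h
  decide

end

end Pool.Agent.MP_9caa86_co.H42
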