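import Pool.Agent.MP_9caa86_co.H42.Sweep

/-! A poly-line grid drawing of quadratic area. -/

open Set

namespace Pool.Agent.MP_9caa86_co.H42

lemma card_extreme {n : ℕ} (E : Finset (Fin n × Fin n)) (π : Fin n × Fin n → Fin n)
    (g : Fin n × Fin n → ℤ) (hg : InjOn g E) [DecidablePred fun e =>
      ∀ e' ∈ E, π e' = π e → g e' ≤ g e] :
    (E.filter (fun e => ∀ e' ∈ E, π e' = π e → g e' ≤ g e)).card ≤ n := by
  have := Finset.card_le_card_of_injOn (s := E.filter (fun e => ∀ e' ∈ E, π e' = π e → g e' ≤ g e))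
    (t := Finset.univ) π (fun _ _ => by simp) (by
      intro e he f hf h
      obtain ⟨h1, h2⟩ := Finset.mem_filter.1 (Finset.mem_coe.1 he)
      obtain ⟨h3, h4⟩ := Finset.mem_filter.1 (Finset.mem_coe.1 hf)
      exact hg h1 h3 (le_antisymm (h4 e h1 h) (h2 f h3 h.symm)))
  simpa using this

lemma card_edges_le {n : ℕ} {E : Finset (Fin n × Fin n)} {rk : Fin n → ℕ}
    {idx : Fin n × Fin n → ℕ} (hI : InjOn idx E) (hR : ∀ e ∈ E, 1 ≤ idx e ∧ idx e ≤ E.card)
    (hS : ∀ e ∈ E, ∀ e' ∈ E, ∀ f ∈ E, e.1 = e'.1 → idx e < idx f → idx f < idx e' → f.1 ≠ e.1 →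
        rk e.1 < rk f.1)
    (hT : ∀ e ∈ E, ∀ e' ∈ E, ∀ f ∈ E, e.2 = e'.2 → idx e < idx f → idx f < idx e' → f.2 ≠ e.2 →
        rk f.2 < rk e.2) : E.card ≤ 4 * n + 1 := by
  classical
  have himg : E.image idx = Finset.Icc 1 E.card := by
    refine Finset.eq_of_subset_of_card_le (fun i hi => ?_) ?_
    · obtain ⟨e, he, rfl⟩ := Finset.mem_image.1 hi
      exact Finset.mem_Icc.2 (hR e he)
    · rw [Finset.card_image_of_injOn hI]; simp
  have hg1 : InjOn (fun e => (idx e : ℤ)) E := fun e he f hf h =>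
    hI he hf (Int.ofNat_inj.1 h)
  have hg2 : InjOn (fun e => -(idx e : ℤ)) E := fun e he f hf h =>
    hI he hf (by have := neg_injective h; exact_mod_cast this)
  set L1 := E.filter (fun e => ∀ e' ∈ E, e'.1 = e.1 → (idx e' : ℤ) ≤ idx e) with hL1
  set L2 := E.filter (fun e => ∀ e' ∈ E, e'.2 = e.2 → (idx e' : ℤ) ≤ idx e) with hL2
  set F1 := E.filter (fun e => ∀ e' ∈ E, e'.1 = e.1 → -(idx e' : ℤ) ≤ -(idx e : ℤ)) with hF1
  set F2 := E.filter (fun e => ∀ e' ∈ E, e'.2 = e.2 → -(idx e' : ℤ) ≤ -(idx e : ℤ)) with hF2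
  have c1 : L1.card ≤ n := card_extreme E Prod.fst _ hg1
  have c2 : L2.card ≤ n := card_extreme E Prod.snd _ hg1
  have c3 : F1.card ≤ n := card_extreme E Prod.fst _ hg2
  have c4 : F2.card ≤ n := card_extreme E Prod.snd _ hg2
  have hsub : Finset.Icc 1 (E.card - 1) ⊆
      (L1 ∪ L2).image idx ∪ (F1 ∪ F2).image (fun e => idx e - 1) := by
    intro i hi
    have hi' := Finset.mem_Icc.1 hi
    obtain ⟨e, he, hei⟩ := Finset.mem_image.1
      (himg ▸ Finset.mem_Icc.2 ⟨hi'.1, by omega⟩ : i ∈ E.image idx)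
    obtain ⟨f, hf, hfi⟩ := Finset.mem_image.1
      (himg ▸ Finset.mem_Icc.2 ⟨by omega, by omega⟩ : i + 1 ∈ E.image idx)
    by_contra hcon
    simp only [Finset.mem_union, Finset.mem_image, not_or, not_exists, not_and] at hcon
    have n1 : e ∉ L1 := fun h => hcon.1 e (Or.inl h) hei
    have n2 : e ∉ L2 := fun h => hcon.1 e (Or.inr h) hei
    have n3 : f ∉ F1 := fun h => hcon.2 f (Or.inl h) (by omega)
    have n4 : f ∉ F2 := fun h => hcon.2 f (Or.inr h) (by omega)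
    simp only [hL1, hL2, hF1, hF2, Finset.mem_filter, he, hf, true_and, not_forall, not_le]
      at n1 n2 n3 n4
    obtain ⟨a1, a1E, a1e, a1l⟩ := n1
    obtain ⟨a2, a2E, a2e, a2l⟩ := n2
    obtain ⟨a3, a3E, a3e, a3l⟩ := n3
    obtain ⟨a4, a4E, a4e, a4l⟩ := n4
    by_cases h1 : f.1 = e.1
    · have h2 : f.2 ≠ e.2 := fun h => by
        have : f = e := Prod.ext h1 h
        rw [this] at hfi; omega
      have b1 : idx a2 ≠ i + 1 := fun h => h2 (by rw [← hI a2E hf (by omega), a2e])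
      have b2 : idx a4 ≠ i := fun h => h2 (by rw [← a4e, hI a4E he (by omega)])
      have := hT e he a2 a2E f hf a2e.symm (by omega) (by omega) h2
      have := hT a4 a4E f hf e he a4e (by omega) (by omega) (by rw [a4e]; exact h2.symm)
      rw [a4e] at this
      omega
    · have b1 : idx a1 ≠ i + 1 := fun h => h1 (by rw [← hI a1E hf (by omega), a1e])
      have b2 : idx a3 ≠ i := fun h => h1 (by rw [← a3e, hI a3E he (by omega)])
      have := hS e he a1 a1E f hf a1e.symm (by omega) (by omega) h1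
      have := hS a3 a3E f hf e he a3e (by omega) (by omega) (by rw [a3e]; exact Ne.symm h1)
      rw [a3e] at this
      omega
  have h1 := Finset.card_le_card hsub
  have h2 := Finset.card_union_le ((L1 ∪ L2).image idx) ((F1 ∪ F2).image (fun e => idx e - 1))
  have h3 := Finset.card_image_le (s := L1 ∪ L2) (f := idx)
  have h4 := Finset.card_image_le (s := F1 ∪ F2) (f := fun e => idx e - 1)
  have h5 := Finset.card_union_le L1 L2
  have h6 := Finset.card_union_le F1 F2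
  simp only [Nat.card_Icc] at h1
  omega

lemma mem_chain_four {a b i r s : ℤ} {p : ℝ × ℝ} (hrs : r < s)
    (hp : p ∈ chain [(a, 3 * r), (i, 3 * r + 1), (i, 3 * s - 1), (b, 3 * s)]) :
    (∃ t ∈ Icc (0 : ℝ) 1, p.1 = (1 - t) * a + t * i ∧ p.2 = 3 * r + t) ∨
    (p.1 = i ∧ 3 * (r : ℝ) + 1 ≤ p.2 ∧ p.2 ≤ 3 * s - 1) ∨
    (∃ t ∈ Icc (0 : ℝ) 1, p.1 = (1 - t) * b + t * i ∧ p.2 = 3 * s - t) := by
  have hrs' : (r : ℝ) + 1 ≤ s := by exact_mod_cast hrs
  simp only [chain, union_empty, mem_union] at hp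
  rcases hp with ⟨u, w, hu, hw, huw, rfl⟩ | ⟨u, w, hu, hw, huw, rfl⟩ | ⟨u, w, hu, hw, huw, rfl⟩
  · left
    have : u = 1 - w := by linarith
    subst this
    refine ⟨w, ⟨hw, by linarith⟩, ?_, ?_⟩ <;> simp [toR] <;> ring
  · right; left
    have : u = 1 - w := by linarith
    subst this
    refine ⟨?_, ?_, ?_⟩ <;> simp [toR] <;> nlinarith
  · right; right
    have : w = 1 - u := by linarith
    subst this
    refine ⟨u, ⟨hu, by linarith⟩, ?_, ?_⟩ <;> simp [toR] <;> ring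

lemma three_eq {r s : ℕ} {t u : ℝ} (ht : t ∈ Icc (0 : ℝ) 1) (hu : u ∈ Icc (-1 : ℝ) 1)
    (h : 3 * (r : ℝ) + t = 3 * s + u) : r = s := by
  have h1 : (r : ℝ) < s + 1 := by linarith [ht.1, hu.2]
  have h2 : (s : ℝ) < r + 1 := by linarith [ht.2, hu.1]
  have h3 : r < s + 1 := by exact_mod_cast h1
  have h4 : s < r + 1 := by exact_mod_cast h2
  omega

lemma between_nat {a b c : ℕ} {t : ℝ} (ht : t ∈ Icc (0 : ℝ) 1) (h : (c : ℝ) = (1 - t) * a + t * b)
    (h1 : c ≠ a) (h2 : c ≠ b) : (a < c ∧ c < b) ∨ (b < c ∧ c < a) := by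
  rcases le_total a b with hab | hab
  · have hab' : (a : ℝ) ≤ b := by exact_mod_cast hab
    have e1 : (a : ℝ) ≤ c := by nlinarith [ht.1]
    have e2 : (c : ℝ) ≤ b := by nlinarith [ht.2]
    have e3 : a ≤ c := by exact_mod_cast e1
    have e4 : c ≤ b := by exact_mod_cast e2
    omega
  · have hab' : (b : ℝ) ≤ a := by exact_mod_cast hab
    have e1 : (b : ℝ) ≤ c := by nlinarith [ht.2]
    have e2 : (c : ℝ) ≤ a := by nlinarith [ht.1]
    have e3 : b ≤ c := by exact_mod_cast e1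
    have e4 : c ≤ a := by exact_mod_cast e2
    omega

theorem upper_bound {n : ℕ} (hn : 1 ≤ n) {E : Finset (Fin n × Fin n)} (hB : IsBipDAG E)
    (hU : UpwardPlanar E) :
    ∃ (pos : Fin n → ℤ × ℤ) (bends : Fin n × Fin n → List (ℤ × ℤ)) (W H : ℝ),
      IsPolyDrawing E pos bends ∧
      (∀ e ∈ E, ∀ v, v ≠ e.1 → v ≠ e.2 → toR (pos v) ∉ chain (pts pos bends e)) ∧
      Fits E pos bends 0 0 W H ∧ W * H ≤ 15 * (n : ℝ) ^ 2 := by
  classical
  obtain ⟨V, hV⟩ := hB
  obtain ⟨rk, idx, r1, r2, r3, hI, hR, hS, hT⟩ := hU.order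
  have hm := card_edges_le hI hR hS hT
  have hx : ∀ v : Fin n, ∃ x : ℕ, (x = 0 ∧ ∀ e ∈ E, e.1 ≠ v ∧ e.2 ≠ v) ∨
      ∃ e ∈ E, (e.1 = v ∨ e.2 = v) ∧ idx e = x := by
    intro v
    by_cases h : ∃ e ∈ E, e.1 = v ∨ e.2 = v
    · obtain ⟨e, he, h⟩ := h
      exact ⟨idx e, Or.inr ⟨e, he, h, rfl⟩⟩
    · push Not at h
      exact ⟨0, Or.inl ⟨rfl, h⟩⟩
  choose xv hxv using hx
  have hx1 : ∀ e ∈ E, ∃ e0 ∈ E, e0.1 = e.1 ∧ idx e0 = xv e.1 := by
    intro e he
    rcases hxv e.1 with h | ⟨e0, h0, h1 | h1, h2⟩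
    · exact absurd rfl (h.2 e he).1
    · exact ⟨e0, h0, h1, h2⟩
    · exact absurd (h1 ▸ (hV e he).1) (hV e0 h0).2
  have hx2 : ∀ e ∈ E, ∃ e0 ∈ E, e0.2 = e.2 ∧ idx e0 = xv e.2 := by
    intro e he
    rcases hxv e.2 with h | ⟨e0, h0, h1 | h1, h2⟩
    · exact absurd rfl (h.2 e he).2
    · exact absurd (h1 ▸ (hV e0 h0).1) (hV e he).2
    · exact ⟨e0, h0, h1, h2⟩
  have hx3 : ∀ v, xv v ≤ E.card := by
    intro v
    rcases hxv v with h | ⟨e0, h0, _, h2⟩
    · omega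
    · rw [← h2]; exact (hR e0 h0).2
  set pos : Fin n → ℤ × ℤ := fun v => ((xv v : ℤ), 3 * (rk v : ℤ)) with hpos
  set bends : Fin n × Fin n → List (ℤ × ℤ) := fun e =>
    [((idx e : ℤ), 3 * (rk e.1 : ℤ) + 1), ((idx e : ℤ), 3 * (rk e.2 : ℤ) - 1)] with hbends
  have hch : ∀ e ∈ E, ∀ p ∈ chain (pts pos bends e),
      (∃ t ∈ Icc (0 : ℝ) 1, p.1 = (1 - t) * xv e.1 + t * idx e ∧ p.2 = 3 * rk e.1 + t) ∨
      (p.1 = idx e ∧ 3 * (rk e.1 : ℝ) + 1 ≤ p.2 ∧ p.2 ≤ 3 * rk e.2 - 1) ∨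
      (∃ t ∈ Icc (0 : ℝ) 1, p.1 = (1 - t) * xv e.2 + t * idx e ∧ p.2 = 3 * rk e.2 - t) := by
    intro e he p hp
    have := mem_chain_four (a := xv e.1) (b := xv e.2) (i := idx e) (r := rk e.1) (s := rk e.2)
      (by exact_mod_cast r3 e he) hp
    simpa using this
  have hAB : ∀ e ∈ E, ∀ f ∈ E, e ≠ f → ∀ t ∈ Icc (0 : ℝ) 1,
      (idx f : ℝ) = (1 - t) * xv e.1 + t * idx e → 3 * (rk f.1 : ℝ) + 1 ≤ 3 * rk e.1 + t →
      False := by
    intro e he f hf hne t ht h1 h2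
    have hif : idx f ≠ idx e := fun h => hne (hI he hf h.symm)
    by_cases hu : f.1 = e.1
    · rw [hu] at h2
      have : t = 1 := by linarith [ht.2]
      rw [this] at h1
      exact hif (by exact_mod_cast (by linarith : (idx f : ℝ) = idx e))
    · obtain ⟨e0, h0, h3, h4⟩ := hx1 e he
      have h5 : rk f.1 ≤ rk e.1 := by
        have : (rk f.1 : ℝ) ≤ rk e.1 := by linarith [ht.2]
        exact_mod_cast this
      rw [← h4] at h1
      rcases between_nat ht h1 (fun h => hu (by rw [hI hf h0 h, h3])) hif with h | h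
      · have := hS e0 h0 e he f hf h3 h.1 h.2 (by rw [h3]; exact hu)
        rw [h3] at this; omega
      · have := hS e he e0 h0 f hf h3.symm h.1 h.2 hu
        omega
  have hCB : ∀ e ∈ E, ∀ f ∈ E, e ≠ f → ∀ t ∈ Icc (0 : ℝ) 1,
      (idx f : ℝ) = (1 - t) * xv e.2 + t * idx e → 3 * (rk e.2 : ℝ) - t ≤ 3 * rk f.2 - 1 →
      False := by
    intro e he f hf hne t ht h1 h2
    have hif : idx f ≠ idx e := fun h => hne (hI he hf h.symm)
    by_cases hu : f.2 = e.2
    · rw [hu] at h2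
      have : t = 1 := by linarith [ht.2]
      rw [this] at h1
      exact hif (by exact_mod_cast (by linarith : (idx f : ℝ) = idx e))
    · obtain ⟨e0, h0, h3, h4⟩ := hx2 e he
      have h5 : rk e.2 ≤ rk f.2 := by
        have : (rk e.2 : ℝ) ≤ rk f.2 := by linarith [ht.2]
        exact_mod_cast this
      rw [← h4] at h1
      rcases between_nat ht h1 (fun h => hu (by rw [hI hf h0 h, h3])) hif with h | h
      · have := hT e0 h0 e he f hf h3 h.1 h.2 (by rw [h3]; exact hu)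
        rw [h3] at this; omega
      · have := hT e he e0 h0 f hf h3.symm h.1 h.2 hu
        omega
  have hAC : ∀ e ∈ E, ∀ f ∈ E, ∀ t ∈ Icc (0 : ℝ) 1, ∀ u ∈ Icc (0 : ℝ) 1,
      3 * (rk e.1 : ℝ) + t = 3 * rk f.2 - u → False := by
    intro e he f hf t ht u hu h
    have := r1 (three_eq (r := rk e.1) (s := rk f.2) (u := -u) ht ⟨by linarith [hu.2], by linarith [hu.1]⟩ (by linarith))
    exact (hV f hf).2 (this ▸ (hV e he).1)
  refine ⟨pos, bends, 4 * n + 1, 3 * n, ⟨?_, ?_, ?_⟩, ?_, ⟨?_, ?_⟩, ?_⟩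
  · intro v w h
    have := congrArg Prod.snd h
    simp only [hpos] at this
    exact r1 (by omega)
  · intro e he
    have := r3 e he
    simp only [pts, hpos, hbends, List.cons_append, List.nil_append, List.isChain_cons_cons,
      List.IsChain.singleton, and_true]
    omega
  · rintro e he f hf hne p ⟨hpe, hpf⟩
    have hif : (idx e : ℝ) ≠ idx f := fun h => hne (hI he hf (by exact_mod_cast h))
    rcases hch e he p hpe with ⟨t, ht, a1, a2⟩ | ⟨a1, a2, a3⟩ | ⟨t, ht, a1, a2⟩ <;>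
      rcases hch f hf p hpf with ⟨u, hu, b1, b2⟩ | ⟨b1, b2, b3⟩ | ⟨u, hu, b1, b2⟩
    · have h1 := r1 (three_eq ht ⟨by linarith [hu.1], hu.2⟩ (a2.symm.trans b2))
      rw [← h1] at b1 b2
      have h2 : u = t := by linarith
      rw [h2] at b1
      have h3 : t = 0 := by
        have : t * ((idx e : ℝ) - idx f) = 0 := by linarith
        exact (mul_eq_zero.1 this).resolve_right (sub_ne_zero.2 hif)
      refine ⟨e.1, Or.inl rfl, Or.inl h1, Prod.ext ?_ ?_⟩
      · rw [a1, h3]; simp [toR, hpos]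
      · rw [a2, h3]; simp [toR, hpos]
    · exact (hAB e he f hf hne t ht (by linarith) (by linarith)).elim
    · exact (hAC e he f hf t ht u hu (by linarith)).elim
    · exact (hAB f hf e he hne.symm u hu (by linarith) (by linarith)).elim
    · exact absurd (a1.symm.trans b1) hif
    · exact (hCB f hf e he hne.symm u hu (by linarith) (by linarith)).elim
    · exact (hAC f hf e he u hu t ht (by linarith)).elim
    · exact (hCB e he f hf hne t ht (by linarith) (by linarith)).elim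
    · have h1 := r1 (three_eq (r := rk e.2) (s := rk f.2) (u := t) hu
        ⟨by linarith [ht.1], ht.2⟩ (by linarith))
      rw [← h1] at b1 b2
      have h2 : u = t := by linarith
      rw [h2] at b1
      have h3 : t = 0 := by
        have : t * ((idx e : ℝ) - idx f) = 0 := by linarith
        exact (mul_eq_zero.1 this).resolve_right (sub_ne_zero.2 hif)
      refine ⟨e.2, Or.inr rfl, Or.inr h1, Prod.ext ?_ ?_⟩
      · rw [a1, h3]; simp [toR, hpos]
      · rw [a2, h3]; simp [toR, hpos]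
  · intro e he v h1 h2 hp
    rcases hch e he _ hp with ⟨t, ht, a1, a2⟩ | ⟨a1, a2, a3⟩ | ⟨t, ht, a1, a2⟩
    · simp only [toR, hpos] at a2
      push_cast at a2
      exact h1 (r1 (three_eq (r := rk e.1) (s := rk v) (u := 0) ht ⟨by norm_num, by norm_num⟩
        (by linarith))).symm
    · simp only [toR, hpos] at a1
      have a4 : xv v = idx e := by exact_mod_cast a1
      rcases hxv v with h | ⟨e0, h0, h3, h4⟩
      · have := (hR e he).1; omega
      · rw [hI h0 he (by omega)] at h3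
        rcases h3 with h3 | h3
        · exact h1 h3.symm
        · exact h2 h3.symm
    · simp only [toR, hpos] at a2
      push_cast at a2
      exact h2 (r1 (three_eq (r := rk v) (s := rk e.2) (u := 0) ht ⟨by norm_num, by norm_num⟩
        (by linarith)))
  · intro v
    have h1 : (xv v : ℝ) ≤ 4 * n + 1 := by exact_mod_cast (hx3 v).trans hm
    have h2 : (rk v : ℝ) ≤ n := by exact_mod_cast (r2 v).le
    simp only [toR, hpos, mem_prod, mem_Icc]
    push_cast
    refine ⟨⟨by positivity, by linarith⟩, by positivity, by linarith⟩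
  · intro e he p hp
    have h1 : (xv e.1 : ℝ) ≤ 4 * n + 1 := by exact_mod_cast (hx3 e.1).trans hm
    have h2 : (xv e.2 : ℝ) ≤ 4 * n + 1 := by exact_mod_cast (hx3 e.2).trans hm
    have h3 : (idx e : ℝ) ≤ 4 * n + 1 := by exact_mod_cast (hR e he).2.trans hm
    have h4 : (rk e.2 : ℝ) ≤ n := by exact_mod_cast (r2 e.2).le
    have h5 : (rk e.1 : ℝ) + 1 ≤ rk e.2 := by exact_mod_cast r3 e he
    have h6 : (0 : ℝ) ≤ rk e.1 := Nat.cast_nonneg _
    have h7 : (0 : ℝ) ≤ xv e.1 := Nat.cast_nonneg _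
    have h8 : (0 : ℝ) ≤ xv e.2 := Nat.cast_nonneg _
    have h9 : (0 : ℝ) ≤ idx e := Nat.cast_nonneg _
    simp only [mem_prod, mem_Icc]
    rcases hch e he p hp with ⟨t, ht, a1, a2⟩ | ⟨a1, a2, a3⟩ | ⟨t, ht, a1, a2⟩
    · rw [a1, a2]
      refine ⟨⟨?_, ?_⟩, ?_, ?_⟩ <;> nlinarith [ht.1, ht.2]
    · rw [a1]
      refine ⟨⟨?_, ?_⟩, ?_, ?_⟩ <;> linarith
    · rw [a1, a2]
      refine ⟨⟨?_, ?_⟩, ?_, ?_⟩ <;> nlinarith [ht.1, ht.2]
  · have : (1 : ℝ) ≤ n := by exact_mod_cast hn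
    nlinarith

end Pool.Agent.MP_9caa86_co.H42
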